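import Mathlib

/-!
# GTR / S / Defs: the homotopy `M^τ` for a word `w` and nodes `z` (section 6.3)

`m = k - 1`, letters `Fin (m+1)`, `w : Fin N → Fin (m+1)`; `c = cos x`, `s = sin x`, `X = tan h`.
-/

set_option autoImplicit false

open Polynomial Finset

noncomputable section

namespace Pool.GTR.S

/-- `a + b X` -/
def lf (a b : ℝ) : ℝ[X] := C a + C b * X

/-- row `a` of `M^τ` as a polynomial in `X = tan h` -/
def rowp {m N : ℕ} (w : Fin N → Fin (m + 1)) (z : Fin N → ℝ) (τ c s : ℝ) (a : Fin (m + 1)) :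
    ℝ[X] :=
  lf c (-s) ^ (m - (a : ℕ)) * lf s c ^ (a : ℕ) *
    ∏ r, if w r = a then lf (z r * c - s) (-(z r * s * τ) - c * τ) else 1

/-- the matrix `M^τ(x)`, written as `m` columns -/
def Mt {m N : ℕ} (w : Fin N → Fin (m + 1)) (z : Fin N → ℝ) (τ x : ℝ) : Fin m → Fin (m + 1) → ℝ :=
  fun b a => (rowp w z τ (Real.cos x) (Real.sin x) a).coeff (b : ℕ)

/-- ballot words in which every letter occurs `l` times -/
structure Bal {m N : ℕ} (l : ℕ) (w : Fin N → Fin (m + 1)) : Prop where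
  card : ∀ a, (univ.filter fun r => w r = a).card = l
  bal : ∀ (t : ℕ) (a b : Fin (m + 1)), a ≤ b →
    (univ.filter fun r : Fin N => (r : ℕ) < t ∧ w r = a).card ≤
      (univ.filter fun r : Fin N => (r : ℕ) < t ∧ w r = b).card

/-- separated nodes along a filter -/
structure Sepz {ι : Type*} {N : ℕ} (F : Filter ι) (z : ι → Fin N → ℝ) : Prop where
  pos : ∀ᶠ i in F, ∀ r, 0 < z i r
  lim : ∀ r, Filter.Tendsto (fun i => z i r) F (nhds 0)
  sep : ∀ r s, r < s → Filter.Tendsto (fun i => z i r / z i s) F (nhds 0)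

end Pool.GTR.S
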