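import Pool.Agent.GTR.S.Final
import Pool.Agent.GTR.EpsU

/-!
# GTR / S / EpsWord: the sign of the normalised word solutions along a filter
-/

set_option autoImplicit false

open Finset Filter Topology

noncomputable section

namespace Pool.GTR.S

open Pool.GTR

lemma Sepz.mono_ev {ι : Type*} {F : Filter ι} {N : ℕ} {z : ι → Fin N → ℝ} (hz : Sepz F z) :
    ∀ᶠ i in F, StrictMono (z i) := by
  have h1 : ∀ᶠ i in F, ∀ r s, r < s → z i r / z i s < 1 := by
    rw [eventually_all]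
    intro r
    rw [eventually_all]
    intro s
    by_cases hrs : r < s
    · filter_upwards [(hz.sep r s hrs).eventually (gt_mem_nhds zero_lt_one)] with i hi _
      exact hi
    · exact Eventually.of_forall fun i h => absurd h hrs
  filter_upwards [h1, hz.pos] with i h2 h3
  intro r s hrs
  have h4 := h2 r s hrs
  rwa [div_lt_one (h3 s)] at h4

theorem eps_word (m l : ℕ) (hl : 1 ≤ l) : ∃ s0 : ℝ, (s0 = 1 ∨ s0 = -1) ∧
    ∀ w : Fin ((m + 1) * l) → Fin (m + 1), _root_.GTR.IsWord w →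
      ∀ {ι : Type} (F : Filter ι) (z : ι → Fin ((m + 1) * l) → ℝ), Sepz F z →
        ∀ᶠ i in F, ∀ g : Matrix (Fin (m + 1)) (Fin (m + 1)) ℝ,
          g * _root_.GTR.uw w (z i) * GTC.jet (GTC.rnc (m + 1 + l)) (m + 1) 0 = 1 →
          eps (GTC.pth (GTC.rnc (m + 1 + l)) (g * _root_.GTR.uw w (z i))) =
            s0 * (-1) ^ _root_.GTR.inv w := by
  have hN : 0 < (m + 1) * l := Nat.mul_pos (Nat.succ_pos m) hl
  have hex : ∃ s0 : ℝ, (s0 = 1 ∨ s0 = -1) ∧
      ∀ w : Fin ((m + 1) * l) → Fin (m + 1), _root_.GTR.IsWord w →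
        ∀ z : Fin ((m + 1) * l) → ℝ, (∀ r, 0 < z r) → StrictMono z → RkOK w z →
          GP (pth (GTC.rnc (m + 1 + l)) (_root_.GTR.uw w z)) ∧
          eps (pth (GTC.rnc (m + 1 + l)) (_root_.GTR.uw w z)) =
            s0 * (-1) ^ _root_.GTR.inv w := by
    by_cases hex : ∃ w : Fin ((m + 1) * l) → Fin (m + 1), _root_.GTR.IsWord w ∧
        ∃ z : Fin ((m + 1) * l) → ℝ, (∀ r, 0 < z r) ∧ StrictMono z ∧ RkOK w z
    · obtain ⟨w0, hw0, z0, hz0, hm0, hk0⟩ := hex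
      refine ⟨eps (pth (GTC.rnc (m + 1 + l)) (_root_.GTR.uw w0 z0)) *
        (-1) ^ _root_.GTR.inv w0, ?_, fun w hw z hz hm hk => ?_⟩
      · rcases eps_or (pth (GTC.rnc (m + 1 + l)) (_root_.GTR.uw w0 z0)) with h2 | h2 <;>
          rcases neg_one_pow_eq_or ℝ (_root_.GTR.inv w0) with h3 | h3 <;> rw [h2, h3] <;> norm_num
      · refine ⟨(gp_uw hw hz hk).1, ?_⟩
        rw [← eps_uw hw hw0 hz hz0 hm hm0 hk hk0, mul_assoc, ← mul_pow]
        norm_num
    · exact ⟨1, Or.inl rfl, fun w hw z hz hm hk => absurd ⟨w, hw, z, hz, hm, hk⟩ hex⟩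
  obtain ⟨s0, hs0, h⟩ := hex
  refine ⟨s0, hs0, fun w hw ι F z hz => ?_⟩
  filter_upwards [hz.pos, hz.mono_ev, rank_ev (bal_of hw) hN hz] with i h1 h2 h3 g hg
  obtain ⟨h4, h5⟩ := h w hw (z i) h1 h2 h3
  have h6 := (eps_norm hw h1 h4).2
  rw [Matrix.mul_assoc] at hg
  have h7 := Matrix.inv_eq_left_inv hg
  rw [h7] at h6
  have h8 : GTC.pth (GTC.rnc (m + 1 + l)) (g * _root_.GTR.uw w (z i)) =
      pth (GTC.rnc (m + 1 + l)) (g * _root_.GTR.uw w (z i)) := rfl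
  rw [h8, h6, h5]

end Pool.GTR.S
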