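import Pool.Agent.GTR.S.Jet

/-!
# GTR / S / Final: the sign of the word solutions (section 6.3)
-/

set_option autoImplicit false

open Polynomial Finset Filter Topology

noncomputable section

namespace Pool.GTR

variable {m : ℕ}

lemma IsGS.li {M q : Fin m → Fin (m + 1) → ℝ} (h : IsGS M q) : LinearIndependent ℝ M := by
  obtain ⟨hq, T, hT, hT0, hM⟩ := h
  rw [Fintype.linearIndependent_iff]
  intro g hg
  have h1 : ∀ i, ∑ j, T i j * g j = 0 := by
    intro i
    have h2 := hq.inner_sum i (fun i => ∑ j, T i j * g j)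
    have h3 : ∑ i, (∑ j, T i j * g j) • q i = ∑ j, g j • M j := by
      have h4 : ∀ j, g j • M j = ∑ i, (T i j * g j) • q i := by
        intro j
        rw [hM j, smul_sum]
        refine sum_congr rfl fun i _ => ?_
        rw [smul_smul, mul_comm]
      rw [sum_congr rfl fun j _ => h4 j, sum_comm]
      exact sum_congr rfl fun i _ => by rw [sum_smul]
    rw [h3, hg] at h2
    rw [← h2]
    simp
  by_contra hcon
  push Not at hcon
  obtain ⟨b0, hb0⟩ := hcon
  obtain ⟨b, hb, hmax⟩ := Finset.exists_max_image (univ.filter fun b => g b ≠ 0)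
    (fun b => (b : ℕ)) ⟨b0, by simpa using hb0⟩
  rw [mem_filter] at hb
  have h2 := h1 b
  rw [sum_eq_single b] at h2
  · exact (mul_ne_zero (hT b).ne' hb.2) h2
  · intro j _ hj
    by_cases hg' : g j = 0
    · rw [hg', mul_zero]
    · have h6 := hmax j (by simpa using hg')
      have h7 : j < b := lt_of_le_of_ne h6 hj
      rw [hT0 b j h7, zero_mul]
  · simp

/-- the sign depends only on the frames -/
lemma eps_congr_gs {A B : ℝ → Fin m → Fin (m + 1) → ℝ}
    (h : ∀ x ∈ Set.Icc 0 Real.pi, gsq (A x) = gsq (B x)) : eps A = eps B := by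
  have h1 : EpsIs A 1 ↔ EpsIs B 1 := by
    constructor
    · rintro ⟨g, hg, h0, h1⟩
      exact ⟨g, ⟨hg.cont, fun x hx => h x hx ▸ hg.mem x hx, hg.ne⟩, h0, h1⟩
    · rintro ⟨g, hg, h0, h1⟩
      exact ⟨g, ⟨hg.cont, fun x hx => (h x hx).symm ▸ hg.mem x hx, hg.ne⟩, h0, h1⟩
  unfold eps
  by_cases h2 : EpsIs A 1
  · rw [if_pos h2, if_pos (h1.1 h2)]
  · rw [if_neg h2, if_neg fun h3 => h2 (h1.2 h3)]

/-- right multiplication by a constant triangular matrix -/
lemma GP.tri {A B : ℝ → Fin m → Fin (m + 1) → ℝ} (hA : GP A) {R : Fin m → Fin m → ℝ}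
    (hR : ∀ j, 0 < R j j) (hR0 : ∀ i j, j < i → R i j = 0)
    (hB : ∀ x, B x = fun j => ∑ i, R i j • A x i) : GP B ∧ eps B = eps A := by
  have hgs : ∀ x ∈ Set.Icc 0 Real.pi, IsGS (B x) (gsq (A x)) := by
    intro x hx
    rw [hB x]
    exact (gsq_isGS (hA.li x hx)).triangular hR hR0
  refine ⟨⟨?_, fun x hx => (hgs x hx).li, ?_, ?_⟩, ?_⟩
  · refine continuousOn_pi.2 fun j => ?_
    have h1 : ContinuousOn (fun x => ∑ i, R i j • A x i) (Set.Icc 0 Real.pi) :=
      continuousOn_finsetSum _ fun i _ => by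
        have h2 : ContinuousOn (fun x => A x i) (Set.Icc 0 Real.pi) :=
          (continuous_apply i).comp_continuousOn hA.cont
        fun_prop
    refine h1.congr fun x _ => ?_
    rw [hB x]
  · rw [hB 0]
    exact hA.std0.triangular hR hR0
  · rw [hB Real.pi]
    rcases hA.stdpi with h | h
    · exact Or.inl (h.triangular hR hR0)
    · exact Or.inr (h.triangular hR hR0)
  · exact eps_congr_gs fun x hx => (gsq_isGS (hgs x hx).li).unique (hgs x hx)

/-- left multiplication by `g` -/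
def LM (g : Matrix (Fin (m + 1)) (Fin (m + 1)) ℝ) (M : Fin m → Fin (m + 1) → ℝ) :
    Fin m → Fin (m + 1) → ℝ := fun j => g.mulVec (M j)

/-- triangular with positive diagonal -/
def TriP (g : Matrix (Fin (m + 1)) (Fin (m + 1)) ℝ) : Prop :=
  (∀ a, 0 < g a a) ∧ ∀ a b, b < a → g a b = 0

lemma TriP.det_ne {g : Matrix (Fin (m + 1)) (Fin (m + 1)) ℝ} (hg : TriP g) : g.det ≠ 0 := by
  rw [Matrix.det_of_isUpperTriangular (fun a b hab => hg.2 a b hab)]
  exact (Finset.prod_pos fun a _ => hg.1 a).ne'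

lemma li_LM {g : Matrix (Fin (m + 1)) (Fin (m + 1)) ℝ} (hg : g.det ≠ 0)
    {M : Fin m → Fin (m + 1) → ℝ} (h : LinearIndependent ℝ M) :
    LinearIndependent ℝ (LM g M) := by
  have h1 : Function.Injective g.mulVec := by
    rw [Matrix.mulVec_injective_iff_isUnit, Matrix.isUnit_iff_isUnit_det]
    exact isUnit_iff_ne_zero.2 hg
  exact h.map' (Matrix.mulVecLin g) (LinearMap.ker_eq_bot.2 h1)

lemma isGS_LM {g : Matrix (Fin (m + 1)) (Fin (m + 1)) ℝ} (hg : TriP g)
    {M : Fin m → Fin (m + 1) → ℝ} (h : IsGS M stdF) : IsGS (LM g M) stdF := by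
  rw [isGS_std_iff] at h ⊢
  have h0 : ∀ (j : Fin m) (i b : Fin (m + 1)), j.castSucc < i → g i b * M j b = 0 := by
    intro j i b hij
    by_cases hb : b < i
    · rw [hg.2 i b hb, zero_mul]
    · rw [h.2 j b (lt_of_lt_of_le hij (not_lt.1 hb)), mul_zero]
  refine ⟨fun j => ?_, fun j i hij => ?_⟩
  · show 0 < ∑ b, g j.castSucc b * M j b
    rw [sum_eq_single j.castSucc]
    · exact mul_pos (hg.1 _) (h.1 j)
    · intro b _ hb
      rcases lt_or_gt_of_ne hb with h1 | h1
      · rw [hg.2 _ b h1, zero_mul]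
      · rw [h.2 j b h1, mul_zero]
    · simp
  · show ∑ b, g i b * M j b = 0
    exact sum_eq_zero fun b _ => h0 j i b hij

lemma LM_neg (g : Matrix (Fin (m + 1)) (Fin (m + 1)) ℝ) (M : Fin m → Fin (m + 1) → ℝ) :
    LM g (-M) = -LM g M := by
  funext j
  show g.mulVec (-(M j)) = -g.mulVec (M j)
  rw [Matrix.mulVec_neg]

lemma GP.lm {M : ℝ → Fin m → Fin (m + 1) → ℝ} (h : GP M)
    {g : Matrix (Fin (m + 1)) (Fin (m + 1)) ℝ} (hg : TriP g) : GP (fun x => LM g (M x)) := by
  refine ⟨?_, fun x hx => li_LM hg.det_ne (h.li x hx), isGS_LM hg h.std0, ?_⟩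
  · refine continuousOn_pi.2 fun j => ?_
    have h1 : Continuous (fun v : Fin (m + 1) → ℝ => g.mulVec v) := by fun_prop
    exact h1.comp_continuousOn ((continuous_apply j).comp_continuousOn h.cont)
  · rcases h.stdpi with h1 | h1
    · exact Or.inl (isGS_LM hg h1)
    · right
      have h2 := h1.neg
      rw [neg_neg] at h2
      have h3 := (isGS_LM hg h2).neg
      rwa [LM_neg, neg_neg] at h3

/-- the sign does not change under triangular matrices with positive diagonal -/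
lemma GP.eps_lm {M : ℝ → Fin m → Fin (m + 1) → ℝ} (h : GP M)
    {g : Matrix (Fin (m + 1)) (Fin (m + 1)) ℝ} (hg : TriP g) :
    eps (fun x => LM g (M x)) = eps M := by
  obtain ⟨G, hG⟩ : ∃ G : ℝ → Matrix (Fin (m + 1)) (Fin (m + 1)) ℝ,
      G = fun t => (1 - t) • 1 + t • g := ⟨_, rfl⟩
  have hGt : ∀ t ∈ Set.Icc (0 : ℝ) 1, TriP (G t) := by
    intro t ht
    rw [hG]
    refine ⟨fun a => ?_, fun a b hab => ?_⟩
    · simp only [Matrix.add_apply, Matrix.smul_apply, Matrix.one_apply_eq, smul_eq_mul, mul_one]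
      have h1 := hg.1 a
      rcases ht.1.eq_or_lt with h2 | h2
      · rw [← h2]
        norm_num
      · have h3 := mul_pos h2 h1
        linarith [ht.2]
    · simp only [Matrix.add_apply, Matrix.smul_apply, smul_eq_mul]
      rw [Matrix.one_apply_ne hab.ne', hg.2 a b hab]
      ring
  have hcont : ContinuousOn (fun q : ℝ × ℝ => LM (G q.1) (M q.2))
      (Set.Icc 0 1 ×ˢ Set.Icc 0 Real.pi) := by
    refine continuousOn_pi.2 fun j => continuousOn_pi.2 fun a => ?_
    show ContinuousOn (fun q : ℝ × ℝ => ∑ b, G q.1 a b * M q.2 j b) _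
    refine continuousOn_finsetSum _ fun b _ => ?_
    have h1 : ContinuousOn (fun q : ℝ × ℝ => G q.1 a b) (Set.Icc 0 1 ×ˢ Set.Icc 0 Real.pi) := by
      rw [hG]
      simp only [Matrix.add_apply, Matrix.smul_apply, smul_eq_mul]
      fun_prop
    have h2 : ContinuousOn (fun q : ℝ × ℝ => M q.2 j b) (Set.Icc 0 1 ×ˢ Set.Icc 0 Real.pi) :=
      (continuous_apply b).comp_continuousOn ((continuous_apply j).comp_continuousOn
        (h.cont.comp continuousOn_snd fun q hq => hq.2))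
    exact h1.mul h2
  have key := eps_const (X := ℝ) (S := Set.Icc (0 : ℝ) 1) isPreconnected_Icc
    (F := fun t x => LM (G t) (M x)) hcont (fun t ht => h.lm (hGt t ht))
    (x := 1) (y := 0) ⟨zero_le_one, le_rfl⟩ ⟨le_rfl, zero_le_one⟩
  have e1 : G 1 = g := by
    rw [hG]
    simp
  have e0 : G 0 = 1 := by
    rw [hG]
    simp
  have e2 : (fun x => LM (1 : Matrix (Fin (m + 1)) (Fin (m + 1)) ℝ) (M x)) = M := by
    funext x j
    show Matrix.mulVec 1 (M x j) = M x j
    rw [Matrix.one_mulVec]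
  simp only [e1, e0, e2] at key
  exact key

end Pool.GTR

namespace Pool.GTR.S

open Pool.GTR

/-- the letters as a function on `ℕ` -/
def wi {m N : ℕ} (w : Fin N → Fin (m + 1)) (r : ℕ) : Fin (m + 1) := if h : r < N then w ⟨r, h⟩ else 0

/-- the nodes as a function on `ℕ` -/
def zi {N : ℕ} (z : Fin N → ℝ) (r : ℕ) : ℝ := if h : r < N then Real.arctan (z ⟨r, h⟩) else 0

/-- the factors as functions on `ℕ` -/
def pi' {N : ℕ} (z : Fin N → ℝ) (r : ℕ) (x : ℝ) : ℝ :=
  if h : r < N then z ⟨r, h⟩ * Real.cos x - Real.sin x else 0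

lemma factor_eq (z x : ℝ) : z * Real.cos x - Real.sin x =
    √(1 + z ^ 2) * Real.sin (Real.arctan z - x) := by
  rw [Real.sin_sub, Real.sin_arctan, Real.cos_arctan]
  have h1 : √(1 + z ^ 2) ≠ 0 := (Real.sqrt_pos.2 (by positivity)).ne'
  field_simp

lemma cnt_wi {m N : ℕ} (w : Fin N → Fin (m + 1)) (a : Fin (m + 1)) :
    cnt (wi w) N a = (univ.filter fun r => w r = a).card := by
  unfold cnt
  rw [Finset.card_filter, Finset.card_filter, Finset.sum_range]
  refine Finset.sum_congr rfl fun r _ => ?_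
  unfold wi
  rw [dif_pos r.2]

lemma wd_of {m N l : ℕ} {w : Fin N → Fin (m + 1)} (hw : Bal l w) {z : Fin N → ℝ}
    (hz : ∀ r, 0 < z r) (hmono : StrictMono z) :
    WD (Real.pi / 2) N l (wi w) (zi z) (pi' z) where
  full a := by rw [cnt_wi, hw.card a]
  zpos r hr := by
    unfold zi
    rw [dif_pos hr]
    exact ⟨Real.arctan_pos.2 (hz _), Real.arctan_lt_pi_div_two _⟩
  zmono r hr := by
    unfold zi
    rw [dif_pos (by omega), dif_pos hr]
    exact Real.arctan_strictMono (hmono (by simp))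
  pcont r hr := by
    unfold pi'
    simp only [dif_pos hr]
    fun_prop
  ppos r hr x hx hlt := by
    unfold zi at hlt
    rw [dif_pos hr] at hlt
    unfold pi'
    rw [dif_pos hr, factor_eq]
    refine mul_pos (Real.sqrt_pos.2 (by positivity)) (Real.sin_pos_of_pos_of_lt_pi (by linarith) ?_)
    have h1 := Real.arctan_lt_pi_div_two (z ⟨r, hr⟩)
    have h2 := Real.pi_pos
    linarith [hx.1]
  pneg r hr x hx hlt := by
    unfold zi at hlt
    rw [dif_pos hr] at hlt
    unfold pi'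
    rw [dif_pos hr, factor_eq]
    refine mul_neg_of_pos_of_neg (Real.sqrt_pos.2 (by positivity))
      (Real.sin_neg_of_neg_of_neg_pi_lt (by linarith) ?_)
    have h1 := Real.arctan_pos.2 (hz ⟨r, hr⟩)
    linarith [hx.2]
  pz r hr := by
    unfold zi pi'
    rw [dif_pos hr, dif_pos hr, factor_eq, sub_self, Real.sin_zero, mul_zero]

lemma sgw_inv {m N : ℕ} (w : Fin N → Fin (m + 1)) :
    sgw (wi w) N = (-1) ^ _root_.GTR.inv w := by
  unfold sgw inv' _root_.GTR.inv
  congr 1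
  rw [Finset.card_filter, ← Finset.univ_product_univ, Finset.sum_product_right,
    Finset.sum_range]
  refine Finset.sum_congr rfl fun r _ => ?_
  rw [Finset.card_filter]
  have h1 : ∀ s ∈ Finset.range (r : ℕ), (if wi w (r : ℕ) < wi w s then 1 else 0) =
      (fun s : ℕ => if s < (r : ℕ) ∧ wi w (r : ℕ) < wi w s then 1 else 0) s := by
    intro s hs
    rw [Finset.mem_range] at hs
    simp [hs]
  rw [Finset.sum_congr rfl h1]
  have h2 : Finset.range (r : ℕ) ⊆ Finset.range N := Finset.range_mono r.2.le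
  rw [Finset.sum_subset h2, Finset.sum_range]
  · refine Finset.sum_congr rfl fun s _ => ?_
    unfold wi
    rw [dif_pos r.2, dif_pos s.2]
    rfl
  · intro s _ hs
    rw [Finset.mem_range] at hs
    rw [if_neg (fun h => hs h.1)]

lemma PP_eq {m N : ℕ} (w : Fin N → Fin (m + 1)) (z : Fin N → ℝ) (x : ℝ) (a : Fin (m + 1)) :
    PP (wi w) N (pi' z) x a = ∏ r, if w r = a then (z r * Real.cos x - Real.sin x) else 1 := by
  unfold PP
  rw [Finset.prod_filter, Finset.prod_range]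
  refine Finset.prod_congr rfl fun r _ => ?_
  unfold wi pi'
  rw [dif_pos r.2, dif_pos r.2]

lemma rowOK_Ph (m : ℕ) : RowOK (Ph m) (Real.pi / 2) := by
  intro x hx a
  have h1 := li_Ph_row (m := m) (Real.cos_sq_add_sin_sq x)
    (Real.cos_pos_of_mem_Ioo ⟨by linarith [hx.1, Real.pi_pos], hx.2⟩).ne'
    (Real.sin_pos_of_pos_of_lt_pi hx.1 (by linarith [hx.2, Real.pi_pos])).ne' a
  convert h1 using 1
  funext j t
  rw [Function.update_apply]
  rfl

/-- the sign of `M^0` -/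
lemma eps_zero {m N l : ℕ} {w w' : Fin N → Fin (m + 1)} (hw : Bal l w) (hw' : Bal l w')
    {z z' : Fin N → ℝ} (hz : ∀ r, 0 < z r) (hz' : ∀ r, 0 < z' r) (hmono : StrictMono z)
    (hmono' : StrictMono z') :
    eps (Mt w z 0) * (-1) ^ _root_.GTR.inv w = eps (Mt w' z' 0) * (-1) ^ _root_.GTR.inv w' := by
  have h1 := epsW (gp_Ph m) (b := Real.pi / 2) (by linarith [Real.pi_pos])
    (by linarith [Real.pi_pos]) (rowOK_Ph m) (wd_of hw hz hmono) (wd_of hw' hz' hmono')
  rw [sgw_inv, sgw_inv] at h1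
  have h2 : ∀ (w : Fin N → Fin (m + 1)) (z : Fin N → ℝ), Mt w z 0 =
      fun x => DM (PP (wi w) N (pi' z) x) (Ph m x) := by
    intro w z
    funext x b a
    rw [Mt_zero]
    show _ = PP (wi w) N (pi' z) x a * Ph m x b a
    rw [PP_eq]
  rw [h2, h2]
  exact h1

/-- the rank condition -/
def RkOK {m N : ℕ} (w : Fin N → Fin (m + 1)) (z : Fin N → ℝ) : Prop :=
  ∀ τ c s : ℝ, 0 ≤ τ → τ ≤ 1 → c ^ 2 + s ^ 2 = 1 → LinearIndependent ℝ (rm (rowp w z τ c s))

/-- the path of a word solution has a sign -/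
theorem gp_uw {m l : ℕ} {w : Fin ((m + 1) * l) → Fin (m + 1)} (hw : _root_.GTR.IsWord w)
    {z : Fin ((m + 1) * l) → ℝ} (hz : ∀ r, 0 < z r) (hrk : RkOK w z) :
    GP (pth (GTC.rnc (m + 1 + l)) (_root_.GTR.uw w z)) ∧
      eps (pth (GTC.rnc (m + 1 + l)) (_root_.GTR.uw w z)) = eps (Mt w z 0) := by
  have hb := bal_of hw
  have h1 := gp_Mt hb hz (τ := 1) fun c s hcs => hrk 1 c s zero_le_one le_rfl hcs
  have h2 := h1.tri (B := pth (GTC.rnc (m + 1 + l)) (_root_.GTR.uw w z))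
    (R := fun i j => Rc (m + 1 + l) i j) (fun j => Rc_pos _ _) (fun i j hij => Rc_zero hij)
    (fun x => by
      funext b a
      rw [pth_uw hw, Finset.sum_apply]
      rfl)
  exact ⟨h2.1, h2.2.trans (eps_Mt hb hz hrk)⟩

/-- the sign of the word solutions -/
theorem eps_uw {m l : ℕ} {w w' : Fin ((m + 1) * l) → Fin (m + 1)} (hw : _root_.GTR.IsWord w)
    (hw' : _root_.GTR.IsWord w') {z z' : Fin ((m + 1) * l) → ℝ} (hz : ∀ r, 0 < z r)
    (hz' : ∀ r, 0 < z' r) (hmono : StrictMono z) (hmono' : StrictMono z') (hrk : RkOK w z)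
    (hrk' : RkOK w' z') :
    eps (pth (GTC.rnc (m + 1 + l)) (_root_.GTR.uw w z)) * (-1) ^ _root_.GTR.inv w =
      eps (pth (GTC.rnc (m + 1 + l)) (_root_.GTR.uw w' z')) * (-1) ^ _root_.GTR.inv w' := by
  rw [(gp_uw hw hz hrk).2, (gp_uw hw' hz' hrk').2]
  exact eps_zero (bal_of hw) (bal_of hw') hz hz' hmono hmono'

/-- nodes which are separated at the scale `d` -/
structure NodeOK {N : ℕ} (C d : ℝ) (z : Fin N → ℝ) : Prop where
  pos : ∀ r, 0 < z r
  lt : ∀ r, z r < C * d ^ (N - (r : ℕ))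
  sep : ∀ r s, r < s → z r ≤ C * d * z s

theorem rank_small {m l : ℕ} (hl : 0 < l) (C : ℝ) : ∃ δ > 0, ∀ d, 0 < d → d < δ →
    ∀ w : Fin ((m + 1) * l) → Fin (m + 1), _root_.GTR.IsWord w →
      ∀ z : Fin ((m + 1) * l) → ℝ, NodeOK C d z → RkOK w z := by
  obtain ⟨F, hF⟩ : ∃ F : Filter (ℝ × (Fin ((m + 1) * l) → ℝ)),
      F = comap Prod.fst (𝓝[>] 0) ⊓ 𝓟 {p | NodeOK C p.1 p.2} := ⟨_, rfl⟩
  have hfst : Tendsto (fun p : ℝ × (Fin ((m + 1) * l) → ℝ) => p.1) F (𝓝 0) := by
    rw [hF]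
    exact ((tendsto_comap (f := Prod.fst) (x := 𝓝[>] (0 : ℝ))).mono_left inf_le_left).mono_right
      nhdsWithin_le_nhds
  have hpos : ∀ᶠ p in F, (0 : ℝ) < p.1 := by
    rw [hF]
    refine Filter.Eventually.filter_mono inf_le_left ?_
    rw [eventually_comap]
    filter_upwards [self_mem_nhdsWithin] with d hd p hp
    rw [hp]
    exact hd
  have hok : ∀ᶠ p in F, NodeOK C p.1 p.2 := by
    rw [hF]
    exact Filter.Eventually.filter_mono inf_le_right (mem_principal_self _)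
  have hsep : Sepz F (fun p : ℝ × (Fin ((m + 1) * l) → ℝ) => p.2) := by
    refine ⟨hok.mono fun p h => h.pos, fun r => ?_, fun r s hrs => ?_⟩
    · have h1 : Tendsto (fun p : ℝ × (Fin ((m + 1) * l) → ℝ) =>
          C * p.1 ^ ((m + 1) * l - (r : ℕ))) F (𝓝 0) := by
        have h2 := (hfst.pow ((m + 1) * l - (r : ℕ))).const_mul C
        rwa [zero_pow (by have := r.2; omega), mul_zero] at h2
      refine squeeze_zero' ?_ ?_ h1
      · exact hok.mono fun p h => (h.pos r).le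
      · exact hok.mono fun p h => (h.lt r).le
    · have h1 : Tendsto (fun p : ℝ × (Fin ((m + 1) * l) → ℝ) => C * p.1) F (𝓝 0) := by
        have h2 := hfst.const_mul C
        rwa [mul_zero] at h2
      refine squeeze_zero' ?_ ?_ h1
      · exact hok.mono fun p h => div_nonneg (h.pos r).le (h.pos s).le
      · exact hok.mono fun p h => by
          rw [div_le_iff₀ (h.pos s)]
          exact h.sep r s hrs
  have hN : 0 < (m + 1) * l := Nat.mul_pos (Nat.succ_pos m) hl
  have h1 : ∀ᶠ p in F, ∀ w : Fin ((m + 1) * l) → Fin (m + 1), _root_.GTR.IsWord w →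
      RkOK w p.2 := by
    rw [eventually_all]
    intro w
    by_cases hw : _root_.GTR.IsWord w
    · filter_upwards [rank_ev (bal_of hw) hN hsep] with p hp _
      exact hp
    · exact Eventually.of_forall fun p h => absurd h hw
  rw [hF, eventually_inf_principal, eventually_comap] at h1
  rw [eventually_nhdsWithin_iff, Metric.eventually_nhds_iff] at h1
  obtain ⟨δ, hδ, h2⟩ := h1
  refine ⟨δ, hδ, fun d hd0 hd w hw z hz => ?_⟩
  refine h2 (y := d) ?_ hd0 (d, z) rfl hz w hw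
  rw [Real.dist_eq, sub_zero, abs_of_pos hd0]
  exact hd

/-- SECTION 6.3: for separated nodes the sign of the word solution `uw w z` is `s0 (-1)^(inv w)` -/
theorem eps_small {m l : ℕ} (hl : 0 < l) (C : ℝ) : ∃ s0 : ℝ, (s0 = 1 ∨ s0 = -1) ∧ ∃ δ > 0,
    ∀ d, 0 < d → d < δ → ∀ w : Fin ((m + 1) * l) → Fin (m + 1), _root_.GTR.IsWord w →
      ∀ z : Fin ((m + 1) * l) → ℝ, NodeOK C d z → StrictMono z →
        GP (pth (GTC.rnc (m + 1 + l)) (_root_.GTR.uw w z)) ∧
        eps (pth (GTC.rnc (m + 1 + l)) (_root_.GTR.uw w z)) = s0 * (-1) ^ _root_.GTR.inv w := by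
  obtain ⟨δ, hδ, h1⟩ := rank_small (m := m) hl C
  by_cases hex : ∃ d, 0 < d ∧ d < δ ∧ ∃ w : Fin ((m + 1) * l) → Fin (m + 1), _root_.GTR.IsWord w ∧
      ∃ z : Fin ((m + 1) * l) → ℝ, NodeOK C d z ∧ StrictMono z
  · obtain ⟨d0, hd0, hd0', w0, hw0, z0, hz0, hm0⟩ := hex
    refine ⟨eps (pth (GTC.rnc (m + 1 + l)) (_root_.GTR.uw w0 z0)) * (-1) ^ _root_.GTR.inv w0, ?_,
      δ, hδ, fun d hd hd' w hw z hz hm => ?_⟩
    · rcases eps_or (pth (GTC.rnc (m + 1 + l)) (_root_.GTR.uw w0 z0)) with h2 | h2 <;>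
        rcases neg_one_pow_eq_or ℝ (_root_.GTR.inv w0) with h3 | h3 <;> rw [h2, h3] <;> norm_num
    · refine ⟨(gp_uw hw hz.pos (h1 d hd hd' w hw z hz)).1, ?_⟩
      rw [← eps_uw hw hw0 hz.pos hz0.pos hm hm0 (h1 d hd hd' w hw z hz)
        (h1 d0 hd0 hd0' w0 hw0 z0 hz0), mul_assoc, ← mul_pow]
      norm_num
  · exact ⟨1, Or.inl rfl, δ, hδ, fun d hd hd' w hw z hz hm =>
      absurd ⟨d, hd, hd', w, hw, z, hz, hm⟩ hex⟩

/-! ### normalisation -/

lemma pth_mul {m n : ℕ} (γ : ℝ → Fin n → ℝ) (g : Matrix (Fin (m + 1)) (Fin (m + 1)) ℝ)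
    (u : Matrix (Fin (m + 1)) (Fin n) ℝ) (x : ℝ) : pth γ (g * u) x = LM g (pth γ u x) := by
  funext b a
  show ∑ j, (g * u) a j * iteratedDeriv (b : ℕ) γ x j =
    ∑ c, g a c * ∑ j, u c j * iteratedDeriv (b : ℕ) γ x j
  simp only [Matrix.mul_apply, Finset.sum_mul, Finset.mul_sum]
  rw [Finset.sum_comm]
  exact Finset.sum_congr rfl fun c _ => Finset.sum_congr rfl fun j _ => by ring

lemma triP_inv {m : ℕ} {g : Matrix (Fin (m + 1)) (Fin (m + 1)) ℝ} (hg : TriP g) : TriP g⁻¹ := by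
  have hu : IsUnit g.det := isUnit_iff_ne_zero.2 hg.det_ne
  have : Invertible g := g.invertibleOfIsUnitDet hu
  have h1 : Matrix.BlockTriangular g (id : Fin (m + 1) → Fin (m + 1)) := fun a b hab => hg.2 a b hab
  have h2 := Matrix.blockTriangular_inv_of_blockTriangular h1
  have h0 : ∀ a b, b < a → g⁻¹ a b = 0 := fun a b hab => h2 hab
  refine ⟨fun a => ?_, h0⟩
  have h3 : (g⁻¹ * g) a a = 1 := by
    rw [Matrix.nonsing_inv_mul _ hu, Matrix.one_apply_eq]
  rw [Matrix.mul_apply, Finset.sum_eq_single a] at h3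
  · have h4 := hg.1 a
    by_contra hcon
    have h5 : g⁻¹ a a * g a a ≤ 0 := mul_nonpos_of_nonpos_of_nonneg (not_lt.1 hcon) h4.le
    linarith
  · intro b _ hb
    rcases lt_or_gt_of_ne hb with h4 | h4
    · rw [h0 a b h4, zero_mul]
    · rw [hg.2 b a h4, mul_zero]
  · simp

/-- `uw w z * J_k(0)` is triangular with positive diagonal -/
theorem triP_uw {m l : ℕ} {w : Fin ((m + 1) * l) → Fin (m + 1)} (hw : _root_.GTR.IsWord w)
    {z : Fin ((m + 1) * l) → ℝ} (hz : ∀ r, 0 < z r) :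
    TriP (_root_.GTR.uw w z * GTC.jet (GTC.rnc (m + 1 + l)) (m + 1) 0) := by
  have hb := bal_of hw
  -- the entry
  have key : ∀ a b : Fin (m + 1),
      (_root_.GTR.uw w z * GTC.jet (GTC.rnc (m + 1 + l)) (m + 1) 0) a b =
      ∑ j : Fin (m + 1 + l), (rowp w z 1 1 0 a).coeff (j : ℕ) * Rc (m + 1 + l) j b := by
    intro a b
    rw [Matrix.mul_apply]
    have h := iteratedDeriv_clm
      (∑ j, _root_.GTR.uw w z a j • ContinuousLinearMap.proj (R := ℝ) (φ := fun _ => ℝ) j)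
      (f := GTC.rnc (m + 1 + l)) (fun r => contDiff_rnc (m + 1 + l)) (b : ℕ)
    have e : (fun y => (∑ j, _root_.GTR.uw w z a j •
        ContinuousLinearMap.proj (R := ℝ) (φ := fun _ => ℝ) j) (GTC.rnc (m + 1 + l) y)) =
        fun y => ∑ j, _root_.GTR.uw w z a j * GTC.rnc (m + 1 + l) y j := by
      funext y
      simp
    rw [e] at h
    have h1 := congrFun h 0
    have e2 : (∑ j, _root_.GTR.uw w z a j * GTC.jet (GTC.rnc (m + 1 + l)) (m + 1) 0 j b) =
        (∑ j, _root_.GTR.uw w z a j • ContinuousLinearMap.proj (R := ℝ) (φ := fun _ => ℝ) j)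
          (iteratedDeriv (b : ℕ) (GTC.rnc (m + 1 + l)) 0) := by
      simp [GTC.jet]
    rw [e2, ← h1]
    have h2 : (fun y => ∑ j, _root_.GTR.uw w z a j * GTC.rnc (m + 1 + l) y j) =ᶠ[𝓝 0]
        fun y => ∑ j : Fin (m + 1 + l), (rowp w z 1 1 0 a).coeff (j : ℕ) *
          GTC.rnc (m + 1 + l) y j := by
      have h3 : ∀ᶠ h in 𝓝 (0 : ℝ), Real.cos h ≠ 0 :=
        Real.continuous_cos.continuousAt.eventually_ne (by simp)
      filter_upwards [h3] with y hy
      have h4 := form_shift hb z a 0 hy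
      rw [Real.cos_zero, Real.sin_zero] at h4
      rw [uw_form hw, ← h4, zero_add]
    rw [h2.iteratedDeriv_eq]
    rw [iteratedDeriv_fun_sum (fun j _ => by
      refine contDiffAt_const.mul ?_
      unfold GTC.rnc
      exact ((Real.contDiff_cos.pow _).mul (Real.contDiff_sin.pow _)).contDiffAt)]
    refine Finset.sum_congr rfl fun j _ => ?_
    rw [iteratedDeriv_const_mul_field]
    rfl
  -- the rows at `0`
  have hrow : ∀ a : Fin (m + 1), rowp w z 1 1 0 a = X ^ (a : ℕ) *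
      ∏ r, if w r = a then lf (z r) (-1) else 1 := by
    intro a
    unfold rowp
    have e1 : lf 1 (-0) = 1 := by rw [neg_zero, lf_zero, C_1]
    have e2 : lf 0 1 = X := by unfold lf; simp
    rw [e1, e2, one_pow, one_mul]
    congr 1
    refine Finset.prod_congr rfl fun r _ => ?_
    split_ifs
    · congr 1 <;> ring
    · rfl
  refine ⟨fun a => ?_, fun a b hab => ?_⟩
  · rw [key, Finset.sum_eq_single (⟨(a : ℕ), by have := a.2; omega⟩ : Fin (m + 1 + l))]
    · refine mul_pos ?_ (Rc_pos _ _)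
      rw [hrow]
      have h2 := coeff_X_pow_mul (∏ r, if w r = a then lf (z r) (-1) else 1) (a : ℕ) 0
      rw [zero_add] at h2
      show 0 < (X ^ (a : ℕ) * ∏ r, if w r = a then lf (z r) (-1) else 1).coeff (a : ℕ)
      rw [h2, coeff_zero_eq_eval_zero, eval_prod]
      refine Finset.prod_pos fun r _ => ?_
      split_ifs
      · rw [← coeff_zero_eq_eval_zero, lf_coeff, if_pos rfl]
        exact hz r
      · simp
    · intro j _ hj
      have hj' : (j : ℕ) ≠ a := fun h => hj (Fin.ext h)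
      rcases lt_or_gt_of_ne hj' with h1 | h1
      · rw [hrow, coeff_X_pow_mul', if_neg (by omega), zero_mul]
      · rw [Rc_zero h1, mul_zero]
    · simp
  · rw [key]
    refine Finset.sum_eq_zero fun j _ => ?_
    have hab' : (b : ℕ) < a := hab
    by_cases h1 : (j : ℕ) < a
    · rw [hrow, coeff_X_pow_mul', if_neg (by omega), zero_mul]
    · rw [Rc_zero (by omega), mul_zero]

/-- the normalised word solution has the same sign -/
theorem eps_norm {m l : ℕ} {w : Fin ((m + 1) * l) → Fin (m + 1)} (hw : _root_.GTR.IsWord w)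
    {z : Fin ((m + 1) * l) → ℝ} (hz : ∀ r, 0 < z r)
    (hgp : GP (pth (GTC.rnc (m + 1 + l)) (_root_.GTR.uw w z))) :
    GP (pth (GTC.rnc (m + 1 + l))
      ((_root_.GTR.uw w z * GTC.jet (GTC.rnc (m + 1 + l)) (m + 1) 0)⁻¹ * _root_.GTR.uw w z)) ∧
    eps (pth (GTC.rnc (m + 1 + l))
      ((_root_.GTR.uw w z * GTC.jet (GTC.rnc (m + 1 + l)) (m + 1) 0)⁻¹ * _root_.GTR.uw w z)) =
    eps (pth (GTC.rnc (m + 1 + l)) (_root_.GTR.uw w z)) := by
  have h1 := triP_inv (triP_uw hw hz)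
  have e : pth (GTC.rnc (m + 1 + l))
      ((_root_.GTR.uw w z * GTC.jet (GTC.rnc (m + 1 + l)) (m + 1) 0)⁻¹ * _root_.GTR.uw w z) =
      fun x => LM (_root_.GTR.uw w z * GTC.jet (GTC.rnc (m + 1 + l)) (m + 1) 0)⁻¹
        (pth (GTC.rnc (m + 1 + l)) (_root_.GTR.uw w z) x) := by
    funext x
    rw [pth_mul]
  rw [e]
  exact ⟨hgp.lm h1, hgp.eps_lm h1⟩

end Pool.GTR.S
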