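import Pool.Agent.GTR.S.Path
import Pool.Agent.GTR.Cl.EpsW
import Pool.Agent.GTR.Defs
import Pool.Agent.GTR.WDefs

/-!
# GTR / S / Jet: the path of the matrix `uw w z` along the rational normal curve is `M^1 R`, with a
constant triangular matrix `R`
-/

set_option autoImplicit false

open Polynomial Finset Filter Topology

noncomputable section

namespace Pool.GTR.S

/-- the path `x ↦ u J_(k-1)(x)`, written as `m = k - 1` columns -/
def pth {m n : ℕ} (γ : ℝ → Fin n → ℝ) (u : Matrix (Fin (m + 1)) (Fin n) ℝ) (x : ℝ) :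
    Fin m → Fin (m + 1) → ℝ := fun b a => ∑ j, u a j * iteratedDeriv (b : ℕ) γ x j

lemma contDiff_rnc (n : ℕ) {r : WithTop ℕ∞} : ContDiff ℝ r (GTC.rnc n) := by
  unfold GTC.rnc
  rw [contDiff_pi]
  intro j
  exact (Real.contDiff_cos.pow _).mul (Real.contDiff_sin.pow _)

/-- iterated derivatives commute with continuous linear functionals -/
lemma iteratedDeriv_clm {E : Type*} [NormedAddCommGroup E] [NormedSpace ℝ E] (L : E →L[ℝ] ℝ)
    {f : ℝ → E} (hf : ∀ n : ℕ, ContDiff ℝ n f) (b : ℕ) :
    iteratedDeriv b (fun y => L (f y)) = fun y => L (iteratedDeriv b f y) := by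
  induction b with
  | zero => simp
  | succ b ih =>
    rw [iteratedDeriv_succ, ih]
    funext y
    rw [iteratedDeriv_succ]
    have h1 : DifferentiableAt ℝ (iteratedDeriv b f) y :=
      ((hf (b + 1)).differentiable_iteratedDeriv b (by exact_mod_cast Nat.lt_succ_self b)) y
    exact ((L.hasFDerivAt.comp_hasDerivAt y h1.hasDerivAt)).deriv

lemma pth_eq {m n : ℕ} (u : Matrix (Fin (m + 1)) (Fin n) ℝ) (x : ℝ) (b : Fin m)
    (a : Fin (m + 1)) : pth (GTC.rnc n) u x b a =
      iteratedDeriv (b : ℕ) (fun y => ∑ j, u a j * GTC.rnc n y j) x := by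
  have h := iteratedDeriv_clm (∑ j, u a j • ContinuousLinearMap.proj (R := ℝ) (φ := fun _ => ℝ) j)
    (f := GTC.rnc n) (fun r => contDiff_rnc n) (b : ℕ)
  have e : (fun y => (∑ j, u a j • ContinuousLinearMap.proj (R := ℝ) (φ := fun _ => ℝ) j)
      (GTC.rnc n y)) = fun y => ∑ j, u a j * GTC.rnc n y j := by
    funext y
    simp
  rw [e] at h
  rw [h]
  simp [pth]

/-- homogenisation: if `natDegree p < n` then `∑ p_j cos^(n-1-j) sin^j = cos^(n-1) p(tan)` -/
lemma sum_rnc {n : ℕ} {p : ℝ[X]} (hp : p.natDegree < n) {y : ℝ} (hy : Real.cos y ≠ 0) :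
    ∑ j : Fin n, p.coeff (j : ℕ) * GTC.rnc n y j =
      Real.cos y ^ (n - 1) * p.eval (Real.sin y / Real.cos y) := by
  rw [eval_eq_sum_range' hp, Finset.mul_sum, Finset.sum_range]
  refine Finset.sum_congr rfl fun j _ => ?_
  unfold GTC.rnc
  have h1 : n - 1 = (n - 1 - (j : ℕ)) + (j : ℕ) := by omega
  conv_rhs => rw [h1, pow_add]
  rw [div_pow]
  field_simp

/-- the derivatives at `0` of `cos^(n-1-j) sin^j` -/
def Rc (n j b : ℕ) : ℝ := iteratedDeriv b (fun h => Real.cos h ^ (n - 1 - j) * Real.sin h ^ j) 0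

lemma id_zero {b j : ℕ} (hb : b < j) : ∀ g : ℝ → ℝ, (∀ n : ℕ, ContDiff ℝ n g) →
    iteratedDeriv b (fun h => g h * Real.sin h ^ j) 0 = 0 := by
  induction b generalizing j with
  | zero =>
    intro g _
    rw [iteratedDeriv_zero, Real.sin_zero, zero_pow (by omega), mul_zero]
  | succ b ih =>
    intro g hg
    obtain ⟨j, rfl⟩ : ∃ j', j = j' + 1 := ⟨j - 1, by omega⟩
    rw [iteratedDeriv_succ']
    have hg' : ∀ n : ℕ, ContDiff ℝ n (deriv g) := fun n =>
      ((hg (n + 1)).iterate_deriv' n 1)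
    have h1 : deriv (fun h => g h * Real.sin h ^ (j + 1)) = fun h =>
        deriv g h * Real.sin h ^ (j + 1) +
          ((j + 1 : ℕ) * g h * Real.cos h) * Real.sin h ^ j := by
      funext h
      have d1 : HasDerivAt g (deriv g h) h := ((hg 1).differentiable (by norm_num) h).hasDerivAt
      have d2 := d1.mul ((Real.hasDerivAt_sin h).pow (j + 1))
      refine (d2.deriv : deriv (fun h => g h * Real.sin h ^ (j + 1)) h = _).trans ?_
      simp only [Nat.add_sub_cancel, Pi.pow_apply]
      ring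
    rw [h1, iteratedDeriv_fun_add, ih (by omega) _ hg', ih (by omega), add_zero]
    · intro n
      exact (contDiff_const.mul (hg n)).mul Real.contDiff_cos
    · exact ((hg' b).mul (Real.contDiff_sin.pow _)).contDiffAt
    · exact (((contDiff_const.mul (hg b)).mul Real.contDiff_cos).mul
        (Real.contDiff_sin.pow _)).contDiffAt

lemma id_diag {b : ℕ} : ∀ g : ℝ → ℝ, (∀ n : ℕ, ContDiff ℝ n g) →
    iteratedDeriv b (fun h => g h * Real.sin h ^ b) 0 = (b.factorial : ℝ) * g 0 := by
  induction b with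
  | zero =>
    intro g _
    rw [iteratedDeriv_zero]
    simp
  | succ b ih =>
    intro g hg
    rw [iteratedDeriv_succ']
    have hg' : ∀ n : ℕ, ContDiff ℝ n (deriv g) := fun n =>
      ((hg (n + 1)).iterate_deriv' n 1)
    have h1 : deriv (fun h => g h * Real.sin h ^ (b + 1)) = fun h =>
        deriv g h * Real.sin h ^ (b + 1) +
          ((b + 1 : ℕ) * g h * Real.cos h) * Real.sin h ^ b := by
      funext h
      have d1 : HasDerivAt g (deriv g h) h := ((hg 1).differentiable (by norm_num) h).hasDerivAt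
      have d2 := d1.mul ((Real.hasDerivAt_sin h).pow (b + 1))
      refine (d2.deriv : deriv (fun h => g h * Real.sin h ^ (b + 1)) h = _).trans ?_
      simp only [Nat.add_sub_cancel, Pi.pow_apply]
      ring
    rw [h1, iteratedDeriv_fun_add, id_zero (Nat.lt_succ_self b) _ hg', ih, zero_add,
      Nat.factorial_succ, Real.cos_zero]
    · push_cast
      ring
    · intro n
      exact (contDiff_const.mul (hg n)).mul Real.contDiff_cos
    · exact ((hg' b).mul (Real.contDiff_sin.pow _)).contDiffAt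
    · exact (((contDiff_const.mul (hg b)).mul Real.contDiff_cos).mul
        (Real.contDiff_sin.pow _)).contDiffAt

lemma Rc_zero {n j b : ℕ} (h : b < j) : Rc n j b = 0 :=
  id_zero h _ fun _ => Real.contDiff_cos.pow _

lemma Rc_pos (n b : ℕ) : 0 < Rc n b b := by
  unfold Rc
  rw [id_diag (fun h => Real.cos h ^ (n - 1 - b)) fun _ => Real.contDiff_cos.pow _, Real.cos_zero,
    one_pow, mul_one]
  exact_mod_cast b.factorial_pos

lemma prod_filter_if {N m : ℕ} (w : Fin N → Fin (m + 1)) (a : Fin (m + 1)) (f : Fin N → ℝ) :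
    (∏ r ∈ univ.filter (fun r => w r = a), f r) = ∏ r, if w r = a then f r else 1 := by
  rw [Finset.prod_filter]

/-- ballot words -/
lemma bal_of {m l : ℕ} {w : Fin ((m + 1) * l) → Fin (m + 1)} (hw : _root_.GTR.IsWord w) :
    Bal l w where
  card a := by
    have h := hw.full a
    unfold _root_.GTR.cnt at h
    refine Eq.trans ?_ h
    congr 1
    ext r
    simp
  bal t a b hab := hw.bal t a b hab

lemma deg_lf (a b : ℝ) : (lf a b).natDegree ≤ 1 := by
  refine natDegree_le_iff_coeff_eq_zero.2 fun n hn => ?_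
  rw [lf_coeff, if_neg (by omega), if_neg (by omega)]

lemma deg_prod {m N : ℕ} (w : Fin N → Fin (m + 1)) (a : Fin (m + 1)) (f : Fin N → ℝ[X])
    (hf : ∀ r, (f r).natDegree ≤ 1) : (∏ r, if w r = a then f r else 1 : ℝ[X]).natDegree ≤
      (univ.filter fun r => w r = a).card := by
  refine (natDegree_prod_le _ _).trans ?_
  rw [Finset.card_filter]
  refine Finset.sum_le_sum fun r _ => ?_
  split_ifs
  · exact hf r
  · simp

lemma deg_rowp {m N l : ℕ} {w : Fin N → Fin (m + 1)} (hw : Bal l w) (z : Fin N → ℝ) (τ c s : ℝ)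
    (a : Fin (m + 1)) : (rowp w z τ c s a).natDegree < m + 1 + l := by
  unfold rowp
  have h1 : (lf c (-s) ^ (m - (a : ℕ))).natDegree ≤ m - (a : ℕ) := by
    refine natDegree_pow_le.trans ?_
    calc (m - (a : ℕ)) * (lf c (-s)).natDegree ≤ (m - (a : ℕ)) * 1 :=
          Nat.mul_le_mul_left _ (deg_lf _ _)
      _ = m - (a : ℕ) := mul_one _
  have h2 : (lf s c ^ (a : ℕ)).natDegree ≤ (a : ℕ) := by
    refine natDegree_pow_le.trans ?_
    calc (a : ℕ) * (lf s c).natDegree ≤ (a : ℕ) * 1 := Nat.mul_le_mul_left _ (deg_lf _ _)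
      _ = (a : ℕ) := mul_one _
  have h3 := deg_prod w a (fun r => lf (z r * c - s) (-(z r * s * τ) - c * τ))
    (fun r => deg_lf _ _)
  rw [hw.card a] at h3
  have h4 := natDegree_mul_le (p := lf c (-s) ^ (m - (a : ℕ))) (q := lf s c ^ (a : ℕ))
  have h5 := natDegree_mul_le (p := lf c (-s) ^ (m - (a : ℕ)) * lf s c ^ (a : ℕ))
    (q := ∏ r, if w r = a then lf (z r * c - s) (-(z r * s * τ) - c * τ) else 1)
  have ha := a.2
  omega

lemma dense_cos : Dense {y : ℝ | Real.cos y ≠ 0} := by
  have h1 : ({y : ℝ | Real.cos y = 0} : Set ℝ).Countable := by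
    refine (Set.countable_range (fun k : ℤ => (2 * (k : ℝ) + 1) * Real.pi / 2)).mono ?_
    intro y hy
    obtain ⟨k, hk⟩ := Real.cos_eq_zero_iff.1 hy
    exact ⟨k, hk.symm⟩
  exact h1.dense_compl ℝ

lemma prod_if_mul {ι : Type*} [Fintype ι] (P : ι → Prop) [DecidablePred P] (f : ι → ℝ) (c : ℝ)
    {l : ℕ} (hl : (univ.filter P).card = l) :
    c ^ l * (∏ r, if P r then f r else 1) = ∏ r, if P r then c * f r else 1 := by
  rw [← hl, ← Finset.prod_const, Finset.prod_filter, ← Finset.prod_mul_distrib]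
  refine Finset.prod_congr rfl fun r _ => ?_
  split_ifs
  · rfl
  · rw [one_mul]

/-- the form of the row `a` of `uw w z` -/
lemma uw_form {m l : ℕ} {w : Fin ((m + 1) * l) → Fin (m + 1)} (hw : _root_.GTR.IsWord w)
    (z : Fin ((m + 1) * l) → ℝ) (a : Fin (m + 1)) (y : ℝ) :
    ∑ j, _root_.GTR.uw w z a j * GTC.rnc (m + 1 + l) y j =
      Real.cos y ^ (m - (a : ℕ)) * Real.sin y ^ (a : ℕ) *
        ∏ r, if w r = a then (z r * Real.cos y - Real.sin y) else 1 := by
  have hb := bal_of hw
  revert y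
  refine congrFun (Continuous.ext_on dense_cos ?_ ?_ ?_)
  · refine continuous_finsetSum _ fun j _ => continuous_const.mul ?_
    unfold GTC.rnc
    fun_prop
  · refine ((Real.continuous_cos.pow _).mul (Real.continuous_sin.pow _)).mul
      (continuous_finsetProd _ fun r _ => ?_)
    split_ifs
    · fun_prop
    · exact continuous_const
  · intro y hy
    have hy' : Real.cos y ≠ 0 := hy
    have hdeg : (_root_.GTR.qp w z a).natDegree < m + 1 + l := by
      unfold _root_.GTR.qp
      have h1 : ((X : ℝ[X]) ^ (a : ℕ)).natDegree ≤ (a : ℕ) := natDegree_X_pow_le _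
      have h2 := deg_prod w a (fun r => (C (z r) - X : ℝ[X])) (fun r => by
        refine (natDegree_sub_le _ _).trans ?_
        simp)
      rw [hb.card a] at h2
      rw [Finset.prod_filter]
      have h3 := natDegree_mul_le (p := (X : ℝ[X]) ^ (a : ℕ))
        (q := ∏ r, if w r = a then (C (z r) - X : ℝ[X]) else 1)
      have ha := a.2
      omega
    have h1 := sum_rnc hdeg hy'
    show ∑ j, _root_.GTR.uw w z a j * GTC.rnc (m + 1 + l) y j = _
    unfold _root_.GTR.uw
    rw [h1]
    unfold _root_.GTR.qp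
    rw [Finset.prod_filter, eval_mul, eval_pow, eval_X, eval_prod]
    have h2 : ∀ r, eval (Real.sin y / Real.cos y) (if w r = a then (C (z r) - X : ℝ[X]) else 1) =
        if w r = a then (z r - Real.sin y / Real.cos y) else 1 := by
      intro r
      split_ifs
      · simp
      · simp
    rw [Finset.prod_congr rfl fun r _ => h2 r]
    have h3 : m + 1 + l - 1 = (m - (a : ℕ)) + (a : ℕ) + l := by omega
    rw [h3, pow_add, pow_add]
    have h4 := prod_if_mul (fun r => w r = a) (fun r => z r - Real.sin y / Real.cos y)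
      (Real.cos y) (hb.card a)
    have h5 : ∀ r, (if w r = a then Real.cos y * (z r - Real.sin y / Real.cos y) else 1) =
        if w r = a then (z r * Real.cos y - Real.sin y) else 1 := by
      intro r
      split_ifs
      · field_simp
      · rfl
    rw [Finset.prod_congr rfl fun r _ => h5 r] at h4
    show _ = Real.cos y ^ (m - (a : ℕ)) * Real.sin y ^ (a : ℕ) *
        ∏ r, if w r = a then (z r * Real.cos y - Real.sin y) else 1
    rw [← h4, div_pow]
    have h6 : Real.cos y ^ (a : ℕ) ≠ 0 := pow_ne_zero _ hy'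
    generalize (∏ r, if w r = a then (z r - Real.sin y / Real.cos y) else 1) = P
    field_simp

lemma form_shift {m N l : ℕ} {w : Fin N → Fin (m + 1)} (hb : Bal l w) (z : Fin N → ℝ)
    (a : Fin (m + 1)) (x : ℝ) {h : ℝ} (hh : Real.cos h ≠ 0) :
    Real.cos (x + h) ^ (m - (a : ℕ)) * Real.sin (x + h) ^ (a : ℕ) *
        (∏ r, if w r = a then (z r * Real.cos (x + h) - Real.sin (x + h)) else 1) =
      ∑ j : Fin (m + 1 + l), (rowp w z 1 (Real.cos x) (Real.sin x) a).coeff (j : ℕ) *
        GTC.rnc (m + 1 + l) h j := by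
  rw [sum_rnc (deg_rowp hb z 1 _ _ a) hh]
  have h3 : m + 1 + l - 1 = (m - (a : ℕ)) + (a : ℕ) + l := by omega
  unfold rowp
  rw [h3, pow_add, pow_add, eval_mul, eval_mul, eval_pow, eval_pow, eval_prod]
  have e1 : ∀ (p q : ℝ), eval (Real.sin h / Real.cos h) (lf p q) =
      p + q * (Real.sin h / Real.cos h) := by
    intro p q
    unfold lf
    simp
  have h2 : ∀ r, eval (Real.sin h / Real.cos h) (if w r = a then
      lf (z r * Real.cos x - Real.sin x) (-(z r * Real.sin x * 1) - Real.cos x * 1) else 1) =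
      if w r = a then ((z r * Real.cos x - Real.sin x) +
        (-(z r * Real.sin x * 1) - Real.cos x * 1) * (Real.sin h / Real.cos h)) else 1 := by
    intro r
    split_ifs
    · rw [e1]
    · simp
  rw [Finset.prod_congr rfl fun r _ => h2 r, e1, e1]
  have h4 := prod_if_mul (fun r => w r = a) (fun r => (z r * Real.cos x - Real.sin x) +
        (-(z r * Real.sin x * 1) - Real.cos x * 1) * (Real.sin h / Real.cos h))
      (Real.cos h) (hb.card a)
  have h5 : ∀ r, (if w r = a then Real.cos h * ((z r * Real.cos x - Real.sin x) +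
        (-(z r * Real.sin x * 1) - Real.cos x * 1) * (Real.sin h / Real.cos h)) else 1) =
      if w r = a then (z r * Real.cos (x + h) - Real.sin (x + h)) else 1 := by
    intro r
    split_ifs
    · rw [Real.cos_add, Real.sin_add]
      field_simp
      ring
    · rfl
  rw [Finset.prod_congr rfl fun r _ => h5 r] at h4
  rw [← h4]
  have e2 : Real.cos (x + h) = Real.cos h * (Real.cos x + -Real.sin x *
      (Real.sin h / Real.cos h)) := by
    rw [Real.cos_add]
    field_simp
    ring
  have e3 : Real.sin (x + h) = Real.cos h * (Real.sin x + Real.cos x *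
      (Real.sin h / Real.cos h)) := by
    rw [Real.sin_add]
    field_simp
  rw [e2, e3, mul_pow, mul_pow]
  ring

/-- the path of `uw w z` is `M^1 R` -/
theorem pth_uw {m l : ℕ} {w : Fin ((m + 1) * l) → Fin (m + 1)} (hw : _root_.GTR.IsWord w)
    (z : Fin ((m + 1) * l) → ℝ) (x : ℝ) (b : Fin m) (a : Fin (m + 1)) :
    pth (GTC.rnc (m + 1 + l)) (_root_.GTR.uw w z) x b a =
      ∑ i : Fin m, Rc (m + 1 + l) i b * Mt w z 1 x i a := by
  have hb := bal_of hw
  rw [pth_eq]
  have h0 := iteratedDeriv_comp_const_add (b : ℕ)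
    (fun y => ∑ j, _root_.GTR.uw w z a j * GTC.rnc (m + 1 + l) y j) x
  have h1 := congrFun h0 0
  simp only [add_zero] at h1
  rw [← h1]
  have h2 : (fun h => ∑ j, _root_.GTR.uw w z a j * GTC.rnc (m + 1 + l) (x + h) j) =ᶠ[𝓝 0]
      fun h => ∑ j : Fin (m + 1 + l), (rowp w z 1 (Real.cos x) (Real.sin x) a).coeff (j : ℕ) *
        GTC.rnc (m + 1 + l) h j := by
    have h3 : ∀ᶠ h in 𝓝 (0 : ℝ), Real.cos h ≠ 0 :=
      Real.continuous_cos.continuousAt.eventually_ne (by simp)
    filter_upwards [h3] with h hh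
    rw [uw_form hw, form_shift hb z a x hh]
  rw [h2.iteratedDeriv_eq]
  rw [iteratedDeriv_fun_sum (fun j _ => by
    refine contDiffAt_const.mul ?_
    unfold GTC.rnc
    exact ((Real.contDiff_cos.pow _).mul (Real.contDiff_sin.pow _)).contDiffAt)]
  have h4 : ∀ j : Fin (m + 1 + l), iteratedDeriv (b : ℕ) (fun h =>
      (rowp w z 1 (Real.cos x) (Real.sin x) a).coeff (j : ℕ) * GTC.rnc (m + 1 + l) h j) 0 =
      (rowp w z 1 (Real.cos x) (Real.sin x) a).coeff (j : ℕ) * Rc (m + 1 + l) j b := by
    intro j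
    rw [iteratedDeriv_const_mul_field]
    rfl
  rw [Finset.sum_congr rfl fun j _ => h4 j]
  rw [Fin.sum_univ_eq_sum_range (fun j => (rowp w z 1 (Real.cos x) (Real.sin x) a).coeff j *
    Rc (m + 1 + l) j b) (m + 1 + l)]
  unfold Mt
  rw [Fin.sum_univ_eq_sum_range (fun j => Rc (m + 1 + l) j b *
    (rowp w z 1 (Real.cos x) (Real.sin x) a).coeff j) m]
  symm
  have h5 : Finset.range m ⊆ Finset.range (m + 1 + l) := Finset.range_mono (by omega)
  rw [← Finset.sum_subset h5]
  · exact Finset.sum_congr rfl fun j _ => mul_comm _ _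
  · intro j _ hj
    rw [Finset.mem_range] at hj
    rw [Rc_zero (by have := b.2; omega), mul_zero]

end Pool.GTR.S
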