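import Pool.Agent.GTR.S.RankM
import Pool.Agent.GTR.Cl.Eps

/-!
# GTR / S / Path: the paths `x ↦ M^τ(x)` have a sign, which does not depend on `τ`
-/

set_option autoImplicit false

open Polynomial Finset Filter Topology

noncomputable section

namespace Pool.GTR.S

lemma CT.rowp {ι : Type*} {F : Filter ι} {m N : ℕ} {w : Fin N → Fin (m + 1)}
    {z : ι → Fin N → ℝ} {z' : Fin N → ℝ} {τ c s : ι → ℝ} {τ' c' s' : ℝ}
    (hz : ∀ r, Tendsto (fun i => z i r) F (𝓝 (z' r))) (hτ : Tendsto τ F (𝓝 τ'))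
    (hc : Tendsto c F (𝓝 c')) (hs : Tendsto s F (𝓝 s')) (a : Fin (m + 1)) :
    CT F (fun i => rowp w (z i) (τ i) (c i) (s i) a) (rowp w z' τ' c' s' a) := by
  unfold S.rowp
  refine ((CT.lf hc hs.neg).pow _).mul ((CT.lf hs hc).pow _) |>.mul (CT.prod fun r _ => ?_)
  split_ifs
  · exact CT.lf (((hz r).mul hc).sub hs) ((((hz r).mul hs).mul hτ).neg.sub (hc.mul hτ))
  · exact CT.const _ _

lemma continuous_Mt {m N : ℕ} (w : Fin N → Fin (m + 1)) :
    Continuous (fun p : (Fin N → ℝ) × ℝ × ℝ => Mt w p.1 p.2.1 p.2.2) := by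
  rw [continuous_iff_continuousAt]
  intro p
  refine tendsto_pi_nhds.2 fun b => tendsto_pi_nhds.2 fun a => ?_
  refine CT.rowp (F := 𝓝 p) (w := w) (fun r => ?_) ?_ ?_ ?_ a (b : ℕ)
  · exact ((continuous_apply r).comp continuous_fst).tendsto p
  · exact (continuous_fst.comp continuous_snd).tendsto p
  · exact (Real.continuous_cos.comp (continuous_snd.comp continuous_snd)).tendsto p
  · exact (Real.continuous_sin.comp (continuous_snd.comp continuous_snd)).tendsto p

lemma rowp_neg {m N l : ℕ} {w : Fin N → Fin (m + 1)} (hw : Bal l w) (z : Fin N → ℝ)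
    (τ c s : ℝ) (a : Fin (m + 1)) :
    rowp w z τ (-c) (-s) a = C ((-1) ^ (m + l)) * rowp w z τ c s a := by
  unfold rowp
  have h1 : ∀ r, (if w r = a then lf (z r * -c - -s) (-(z r * -s * τ) - -c * τ) else 1 : ℝ[X]) =
      (if w r = a then C (-1) else 1) *
        (if w r = a then lf (z r * c - s) (-(z r * s * τ) - c * τ) else 1) := by
    intro r
    split_ifs
    · rw [← lf_smul]
      congr 1 <;> ring
    · rw [one_mul]
  rw [Finset.prod_congr rfl fun r _ => h1 r, Finset.prod_mul_distrib, prod_if, hw.card a]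
  have e1 : lf (-c) (- -s) = C (-1) * lf c (-s) := by
    rw [← lf_smul]
    congr 1 <;> ring
  have e2 : lf (-s) (-c) = C (-1) * lf s c := by
    rw [← lf_smul]
    congr 1 <;> ring
  have e3 : (C ((-1) ^ (m + l)) : ℝ[X]) = C (-1) ^ (m - (a : ℕ)) * C (-1) ^ (a : ℕ) *
      C (-1) ^ l := by
    rw [← pow_add, Nat.sub_add_cancel (by omega), ← pow_add, C_pow]
  rw [e1, e2, e3, mul_pow, mul_pow]
  ring

/-- at `x = 0` -/
lemma isGS_zero {m N : ℕ} (w : Fin N → Fin (m + 1)) {z : Fin N → ℝ} (hz : ∀ r, 0 < z r) (τ : ℝ) :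
    IsGS (rm (rowp w z τ 1 0)) stdF := by
  have h1 : ∀ a : Fin (m + 1), rowp w z τ 1 0 a = X ^ (a : ℕ) *
      ∏ r, if w r = a then lf (z r) (-τ) else 1 := by
    intro a
    unfold rowp
    have e1 : lf 1 (-0) = 1 := by rw [neg_zero, lf_zero, C_1]
    have e2 : lf 0 1 = X := by unfold lf; simp
    rw [e1, e2, one_pow, one_mul]
    congr 1
    refine Finset.prod_congr rfl fun r _ => ?_
    split_ifs
    · congr 1 <;> ring
    · rfl
  refine isGS_std ?_ ?_
  · intro j
    unfold rm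
    rw [h1, Fin.val_castSucc]
    have h2 := coeff_X_pow_mul (∏ r, if w r = j.castSucc then lf (z r) (-τ) else 1) (j : ℕ) 0
    rw [zero_add] at h2
    rw [h2, coeff_zero_eq_eval_zero, eval_prod]
    refine Finset.prod_pos fun r _ => ?_
    split_ifs
    · rw [← coeff_zero_eq_eval_zero, lf_coeff, if_pos rfl]
      exact hz r
    · simp
  · intro j i hij
    unfold rm
    have hij' : (j : ℕ) < i := hij
    rw [h1, coeff_X_pow_mul', if_neg (by omega)]

/-- the paths `M^τ` have a sign -/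
lemma gp_Mt {m N l : ℕ} {w : Fin N → Fin (m + 1)} (hw : Bal l w) {z : Fin N → ℝ}
    (hz : ∀ r, 0 < z r) {τ : ℝ} (hτ : ∀ c s : ℝ, c ^ 2 + s ^ 2 = 1 →
      LinearIndependent ℝ (rm (rowp w z τ c s))) : GP (Mt w z τ) := by
  have h0 : IsGS (Mt w z τ 0) stdF := by
    have := isGS_zero w hz τ
    unfold Mt
    rw [Real.cos_zero, Real.sin_zero]
    exact this
  refine ⟨?_, ?_, h0, ?_⟩
  · have := continuous_Mt w
    exact (this.comp (f := fun x : ℝ => (z, τ, x)) (by fun_prop)).continuousOn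
  · intro x _
    exact hτ (Real.cos x) (Real.sin x) (Real.cos_sq_add_sin_sq x)
  · have h1 : Mt w z τ Real.pi = (-1 : ℝ) ^ (m + l) • Mt w z τ 0 := by
      funext b a
      simp only [Pi.smul_apply, smul_eq_mul]
      unfold Mt
      rw [Real.cos_zero, Real.sin_zero, Real.cos_pi, Real.sin_pi, ← neg_zero, rowp_neg hw,
        coeff_C_mul, neg_zero]
    rcases neg_one_pow_eq_or ℝ (m + l) with h2 | h2
    · left
      rw [h1, h2, one_smul]
      exact h0
    · right
      rw [h1, h2, neg_one_smul]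
      exact h0.neg

/-- the sign does not depend on `τ` -/
lemma eps_Mt {m N l : ℕ} {w : Fin N → Fin (m + 1)} (hw : Bal l w) {z : Fin N → ℝ}
    (hz : ∀ r, 0 < z r) (h : ∀ τ c s : ℝ, 0 ≤ τ → τ ≤ 1 → c ^ 2 + s ^ 2 = 1 →
      LinearIndependent ℝ (rm (rowp w z τ c s))) : eps (Mt w z 1) = eps (Mt w z 0) := by
  refine eps_const (X := ℝ) (S := Set.Icc 0 1) isPreconnected_Icc (F := fun τ => Mt w z τ) ?_ ?_
    ⟨zero_le_one, le_rfl⟩ ⟨le_rfl, zero_le_one⟩
  · exact ((continuous_Mt w).comp (f := fun p : ℝ × ℝ => (z, p.1, p.2))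
      (by fun_prop)).continuousOn
  · intro τ hτ
    exact gp_Mt hw hz fun c s hcs => h τ c s hτ.1 hτ.2 hcs

/-! ### `τ = 0` -/

/-- the rows of `Φ` -/
def php {m : ℕ} (c s : ℝ) (a : Fin (m + 1)) : ℝ[X] := lf c (-s) ^ (m - (a : ℕ)) * lf s c ^ (a : ℕ)

/-- the matrix `Φ(x)` -/
def Ph (m : ℕ) (x : ℝ) : Fin m → Fin (m + 1) → ℝ := rm (php (Real.cos x) (Real.sin x))

lemma Mt_zero {m N : ℕ} (w : Fin N → Fin (m + 1)) (z : Fin N → ℝ) (x : ℝ) (b : Fin m)
    (a : Fin (m + 1)) : Mt w z 0 x b a =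
      (∏ r, if w r = a then (z r * Real.cos x - Real.sin x) else 1) * Ph m x b a := by
  unfold Mt Ph rm rowp php
  have h1 : ∀ r, (if w r = a then lf (z r * Real.cos x - Real.sin x)
      (-(z r * Real.sin x * 0) - Real.cos x * 0) else 1 : ℝ[X]) =
      C (if w r = a then (z r * Real.cos x - Real.sin x) else 1) := by
    intro r
    split_ifs
    · rw [mul_zero, mul_zero, neg_zero, sub_zero, lf_zero]
    · rw [C_1]
  rw [Finset.prod_congr rfl fun r _ => h1 r, ← map_prod, mul_comm, coeff_C_mul]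

lemma li_Ph {m : ℕ} {c s : ℝ} (h : c ^ 2 + s ^ 2 = 1) :
    LinearIndependent ℝ (rm (m := m) (php c s)) := by
  have h1 := li_A (m := m) h 1 (by simp)
  simp only [mul_one] at h1
  exact h1

/-- one row can be omitted if `c s ≠ 0` -/
lemma li_Ph_row {m : ℕ} {c s : ℝ} (h : c ^ 2 + s ^ 2 = 1) (hc : c ≠ 0) (hs : s ≠ 0)
    (a0 : Fin (m + 1)) : LinearIndependent ℝ (fun (b : Fin m) (a : Fin (m + 1)) =>
      if a = a0 then 0 else rm (php c s) b a) := by
  have h1 := li_Ph (m := m) h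
  rw [Fintype.linearIndependent_iff] at h1 ⊢
  intro g hg
  refine h1 g ?_
  let φ : ℝ[X] →ₗ[ℝ] ℝ := ∑ b : Fin m, g b • lcoeff ℝ (b : ℕ)
  have hφ : ∀ p : ℝ[X], φ p = ∑ b : Fin m, g b * p.coeff (b : ℕ) := by
    intro p
    simp [φ]
  have hne : ∀ a, a ≠ a0 → φ (php c s a) = 0 := by
    intro a ha
    rw [hφ]
    have := congrFun hg a
    simpa [ha, rm] using this
  have key : φ (php c s a0) = 0 := by
    have e1 : C (-s) * lf c (-s) + C c * lf s c = X := by
      unfold lf
      have : C (c ^ 2 + s ^ 2) = (1 : ℝ[X]) := by rw [h, C_1]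
      rw [C_add, C_pow, C_pow] at this
      rw [C_neg]
      linear_combination X * this
    have e2 : (X : ℝ[X]) ^ m = ∑ a : Fin (m + 1),
        ((-s) ^ (m - (a : ℕ)) * c ^ (a : ℕ) * (m.choose (a : ℕ))) • php c s a := by
      rw [← e1, add_comm, add_pow, Finset.sum_range]
      refine Finset.sum_congr rfl fun a _ => ?_
      unfold php
      rw [smul_eq_C_mul, C_mul, C_mul, C_pow, C_pow, C_eq_natCast, mul_pow, mul_pow]
      ring
    have e3 : φ (X ^ m) = 0 := by
      rw [hφ]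
      refine Finset.sum_eq_zero fun b _ => ?_
      rw [coeff_X_pow, if_neg (by have := b.2; omega), mul_zero]
    rw [e2, map_sum, Finset.sum_eq_single a0] at e3
    · rw [map_smul, smul_eq_mul] at e3
      refine (mul_eq_zero.1 e3).resolve_left ?_
      have hch : (m.choose (a0 : ℕ) : ℝ) ≠ 0 := by
        have := Nat.choose_pos (show (a0 : ℕ) ≤ m by omega)
        positivity
      exact mul_ne_zero (mul_ne_zero (pow_ne_zero _ (neg_ne_zero.2 hs)) (pow_ne_zero _ hc)) hch
    · intro a _ ha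
      rw [map_smul, hne a ha, smul_zero]
    · simp
  funext a
  have h2 : φ (php c s a) = 0 := by
    by_cases ha : a = a0
    · rw [ha]
      exact key
    · exact hne a ha
  rw [hφ] at h2
  simpa [rm] using h2

lemma gp_Ph (m : ℕ) : GP (Ph m) := by
  have h := gp_Mt (m := m) (N := 0) (l := 0) (w := Fin.elim0) ⟨by simp, by simp⟩ (z := Fin.elim0)
    (fun r => r.elim0) (τ := 0) (fun c s hcs => by
      have := li_Ph (m := m) hcs
      convert this using 2
      unfold rowp php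
      simp)
  convert h using 1
  funext x b a
  rw [Mt_zero]
  simp

end Pool.GTR.S
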