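import Mathlib

/-!
# GTR / S / TPL: total positivity of the jets of `(1+y)^p_a (1+τ y)^λ_a`

`p` strictly increasing, `λ` increasing, `τ ≥ 0`: the matrix of the coefficients of `y^b`, `b < m`,
of the `m` polynomials has positive determinant.
-/

set_option autoImplicit false

open Polynomial Finset

noncomputable section

namespace Pool.GTR.S

/-- coefficient with an integer index -/
def cz (p : ℝ[X]) (j : ℤ) : ℝ := if 0 ≤ j then p.coeff j.toNat else 0

/-- minor of the coefficient matrix, columns `J` -/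
def mn {m : ℕ} (f : Fin m → ℝ[X]) (J : Fin m → ℤ) : ℝ :=
  (Matrix.of fun b a => cz (f a) (J b)).det

/-- all minors are nonnegative -/
def TN {m : ℕ} (f : Fin m → ℝ[X]) : Prop := ∀ J : Fin m → ℤ, StrictMono J → 0 ≤ mn f J

/-- the initial minor is positive -/
def PI {m : ℕ} (f : Fin m → ℝ[X]) : Prop := 0 < mn f (fun b => ((b : ℕ) : ℤ))

lemma cz_mul (p : ℝ[X]) (s : ℝ) (j : ℤ) :
    cz (p * (1 + C s * X)) j = cz p j + s * cz p (j - 1) := by
  unfold cz
  rw [mul_add, mul_one]
  rcases lt_trichotomy j 0 with h | h | h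
  · rw [if_neg (by omega), if_neg (by omega), if_neg (by omega)]
    ring
  · subst h
    rw [if_pos le_rfl, if_pos le_rfl, if_neg (by omega)]
    have h3 : p * (C s * X) = C s * (p * X) := by ring
    rw [coeff_add, h3, coeff_C_mul, Int.toNat_zero, mul_coeff_zero, coeff_X_zero]
    ring
  · obtain ⟨n, rfl⟩ : ∃ n : ℕ, j = (n : ℤ) + 1 := ⟨(j - 1).toNat, by omega⟩
    rw [if_pos (by omega), if_pos (by omega), if_pos (by omega)]
    have h1 : ((n : ℤ) + 1).toNat = n + 1 := by omega
    have h2 : ((n : ℤ) + 1 - 1).toNat = n := by omega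
    rw [h1, h2, coeff_add]
    have h3 : p * (C s * X) = C s * (p * X) := by ring
    rw [h3, coeff_C_mul, coeff_mul_X]

lemma mn_eq_zero {m : ℕ} (f : Fin m → ℝ[X]) (J : Fin m → ℤ) {b b' : Fin m} (hb : b ≠ b')
    (h : J b = J b') : mn f J = 0 := by
  unfold mn
  refine Matrix.det_zero_of_row_eq hb ?_
  funext a
  simp [Matrix.of_apply, h]

lemma mn_mono {m : ℕ} {f : Fin m → ℝ[X]} (hf : TN f) {J : Fin m → ℤ} (hJ : Monotone J) :
    0 ≤ mn f J := by
  by_cases h : Function.Injective J
  · exact hf J (hJ.strictMono_of_injective h)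
  · unfold Function.Injective at h
    push Not at h
    obtain ⟨b, b', h1, h2⟩ := h
    exact (mn_eq_zero f J h2 h1).ge

/-- expansion of a minor of `f * (1 + s X)` -/
lemma mn_mul {m : ℕ} (f : Fin m → ℝ[X]) (s : ℝ) (J : Fin m → ℤ) :
    mn (fun a => f a * (1 + C s * X)) J =
      ∑ S : Finset (Fin m), s ^ S.card * mn f (fun b => if b ∈ S then J b - 1 else J b) := by
  unfold mn
  have h1 : (Matrix.of fun b a => cz (f a * (1 + C s * X)) (J b)) =
      (fun b a => s * cz (f a) (J b - 1)) + (fun b a => cz (f a) (J b)) := by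
    funext b a
    simp only [Matrix.of_apply, Pi.add_apply]
    rw [cz_mul]
    ring
  rw [h1]
  have h2 := (Matrix.detRowAlternating (n := Fin m) (R := ℝ)).toMultilinearMap.map_add_univ
    (fun b a => s * cz (f a) (J b - 1)) (fun b a => cz (f a) (J b))
  change Matrix.det _ = _ at h2
  rw [h2]
  refine Finset.sum_congr rfl fun S _ => ?_
  change Matrix.det _ = _
  have h3 : (S.piecewise (fun b a => s * cz (f a) (J b - 1)) (fun b a => cz (f a) (J b)) :
      Matrix (Fin m) (Fin m) ℝ) = Matrix.of fun b a => (if b ∈ S then s else 1) *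
        (Matrix.of fun b a => cz (f a) (if b ∈ S then J b - 1 else J b)) b a := by
    funext b a
    simp only [Matrix.of_apply, Finset.piecewise]
    by_cases hb : b ∈ S
    · simp [hb]
    · simp [hb]
  rw [h3, Matrix.det_mul_column]
  congr 1
  rw [Finset.prod_ite]
  simp

lemma mono_sub {m : ℕ} {J : Fin m → ℤ} (hJ : StrictMono J) (S : Finset (Fin m)) :
    Monotone (fun b => if b ∈ S then J b - 1 else J b) := by
  intro b b' h
  rcases h.eq_or_lt with h1 | h1
  · rw [h1]
  · have h2 := hJ h1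
    dsimp only
    split_ifs <;> omega

lemma TN.mul {m : ℕ} {f : Fin m → ℝ[X]} (hf : TN f) {s : ℝ} (hs : 0 ≤ s) :
    TN (fun a => f a * (1 + C s * X)) := by
  intro J hJ
  rw [mn_mul]
  exact Finset.sum_nonneg fun S _ => mul_nonneg (pow_nonneg hs _) (mn_mono hf (mono_sub hJ S))

lemma PI.mul {m : ℕ} {f : Fin m → ℝ[X]} (hf : TN f) (hf' : PI f) {s : ℝ} (hs : 0 ≤ s) :
    PI (fun a => f a * (1 + C s * X)) := by
  unfold PI
  rw [mn_mul]
  have hJ : StrictMono (fun b : Fin m => ((b : ℕ) : ℤ)) := fun a b h => by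
    simpa using h
  refine lt_of_lt_of_le ?_ (Finset.single_le_sum (fun S _ => mul_nonneg (pow_nonneg hs _)
    (mn_mono hf (mono_sub hJ S))) (Finset.mem_univ (∅ : Finset (Fin m))))
  unfold PI at hf'
  simpa using hf'

lemma shift_pos {m : ℕ} {f : Fin m → ℝ[X]} (hf : TN f) (hf' : PI f) :
    0 < mn (fun a => f a * (1 + C 1 * X)) (fun b => ((b : ℕ) : ℤ) + 1) := by
  rw [mn_mul]
  have hJ : StrictMono (fun b : Fin m => ((b : ℕ) : ℤ) + 1) := fun a b h => by
    have : (a : ℕ) < b := h
    dsimp only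
    omega
  refine lt_of_lt_of_le ?_ (Finset.single_le_sum (fun S _ => mul_nonneg (pow_nonneg zero_le_one _)
    (mn_mono hf (mono_sub hJ S))) (Finset.mem_univ (Finset.univ : Finset (Fin m))))
  unfold PI at hf'
  simpa using hf'

lemma TN.mul_pow {m : ℕ} {f : Fin m → ℝ[X]} (hf : TN f) (hf' : PI f) {s : ℝ} (hs : 0 ≤ s) (n : ℕ) :
    TN (fun a => f a * (1 + C s * X) ^ n) ∧ PI (fun a => f a * (1 + C s * X) ^ n) := by
  induction n with
  | zero => simpa using ⟨hf, hf'⟩
  | succ n ih =>
    have e : (fun a => f a * (1 + C s * X) ^ (n + 1)) =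
        fun a => (fun a => f a * (1 + C s * X) ^ n) a * (1 + C s * X) := by
      funext a
      rw [pow_succ, mul_assoc]
    rw [e]
    exact ⟨ih.1.mul hs, PI.mul ih.1 ih.2 hs⟩

lemma cz_one (j : ℤ) : cz 1 j = if j = 0 then 1 else 0 := by
  unfold cz
  by_cases h : 0 ≤ j
  · rw [if_pos h, coeff_one]
    by_cases h1 : j = 0
    · subst h1
      simp
    · rw [if_neg (by omega), if_neg h1]
  · rw [if_neg h, if_neg (by omega)]

lemma mn_cons {m : ℕ} (f : Fin m → ℝ[X]) {J : Fin (m + 1) → ℤ} (hJ : StrictMono J) :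
    mn (Fin.cons 1 f : Fin (m + 1) → ℝ[X]) J =
      if J 0 = 0 then mn f (fun b => J b.succ) else
        (if ∃ b, J b = 0 then mn (Fin.cons 1 f : Fin (m + 1) → ℝ[X]) J else 0) := by
  by_cases h0 : J 0 = 0
  · rw [if_pos h0]
    unfold mn
    rw [Matrix.det_succ_column_zero, Finset.sum_eq_single 0]
    · simp only [Fin.val_zero, pow_zero, Matrix.of_apply, Fin.cons_zero, one_mul]
      rw [cz_one, if_pos h0, one_mul]
      congr 1
    · intro b _ hb
      simp only [Matrix.of_apply, Fin.cons_zero]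
      have h1 : J 0 < J b := hJ (Fin.pos_iff_ne_zero.2 hb)
      rw [cz_one, if_neg (by omega)]
      ring
    · simp
  · rw [if_neg h0]
    by_cases h1 : ∃ b, J b = 0
    · rw [if_pos h1]
    · rw [if_neg h1]
      push Not at h1
      unfold mn
      refine Matrix.det_eq_zero_of_column_eq_zero 0 fun b => ?_
      simp only [Matrix.of_apply, Fin.cons_zero]
      rw [cz_one, if_neg (h1 b)]

lemma TN.cons {m : ℕ} {f : Fin m → ℝ[X]} (hf : TN f) : TN (Fin.cons 1 f : Fin (m + 1) → ℝ[X]) := by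
  intro J hJ
  by_cases h0 : J 0 = 0
  · rw [mn_cons f hJ, if_pos h0]
    refine hf _ fun a b h => hJ ?_
    simpa using h
  · by_cases h1 : J 0 < 0
    · unfold mn
      refine (Matrix.det_eq_zero_of_row_eq_zero 0 fun a => ?_).ge
      simp only [Matrix.of_apply]
      unfold cz
      rw [if_neg (by omega)]
    · rw [mn_cons f hJ, if_neg h0, if_neg]
      rintro ⟨b, hb⟩
      have h2 : J 0 ≤ J b := hJ.monotone (Fin.zero_le b)
      omega

lemma PI.cons {m : ℕ} {f : Fin m → ℝ[X]} (hf : TN f) (hf' : PI f) :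
    PI (Fin.cons 1 (fun a => f a * (1 + C 1 * X)) : Fin (m + 1) → ℝ[X]) := by
  unfold PI
  have hJ : StrictMono (fun b : Fin (m + 1) => ((b : ℕ) : ℤ)) := fun a b h => by
    simpa using h
  rw [mn_cons _ hJ, if_pos (by simp)]
  have := shift_pos hf hf'
  simpa using this

/-- total positivity -/
theorem tp_jet (m : ℕ) (p l : Fin m → ℕ) (hp : StrictMono p) (hl : Monotone l) {τ : ℝ}
    (hτ : 0 ≤ τ) : TN (fun a => (1 + C 1 * X) ^ p a * (1 + C τ * X) ^ l a : Fin m → ℝ[X]) ∧
      PI (fun a => (1 + C 1 * X) ^ p a * (1 + C τ * X) ^ l a : Fin m → ℝ[X]) := by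
  induction m with
  | zero =>
    constructor
    · intro J _
      unfold mn
      simp
    · unfold PI mn
      simp
  | succ m ih =>
    have hp' : StrictMono (fun a : Fin m => p a.succ - p 0 - 1) := by
      intro a b h
      have h1 : p a.succ < p b.succ := hp (by simpa using h)
      have h2 : p 0 < p a.succ := hp (Fin.succ_pos a)
      dsimp only
      omega
    have hl' : Monotone (fun a : Fin m => l a.succ - l 0) := by
      intro a b h
      have h1 : l a.succ ≤ l b.succ := hl (by simpa using h)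
      dsimp only
      omega
    obtain ⟨h1, h2⟩ := ih _ _ hp' hl'
    have h3 := TN.cons (h1.mul (zero_le_one))
    have h4 := PI.cons h1 h2
    obtain ⟨h5, h6⟩ := h3.mul_pow h4 zero_le_one (p 0)
    obtain ⟨h7, h8⟩ := h5.mul_pow h6 hτ (l 0)
    have e : (fun a => (1 + C 1 * X) ^ p a * (1 + C τ * X) ^ l a : Fin (m + 1) → ℝ[X]) =
        fun a => (fun a => (Fin.cons 1 (fun a => ((1 + C 1 * X) ^ (p a.succ - p 0 - 1) *
          (1 + C τ * X) ^ (l a.succ - l 0)) * (1 + C 1 * X)) : Fin (m + 1) → ℝ[X]) a *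
            (1 + C 1 * X) ^ p 0) a * (1 + C τ * X) ^ l 0 := by
      funext a
      refine Fin.cases ?_ (fun a => ?_) a
      · simp
      · dsimp only
        rw [Fin.cons_succ]
        have h2 : p 0 < p a.succ := hp (Fin.succ_pos a)
        have h3 : l 0 ≤ l a.succ := hl (Fin.zero_le _)
        obtain ⟨q, hq⟩ : ∃ q, p a.succ = q + p 0 + 1 := ⟨p a.succ - p 0 - 1, by omega⟩
        obtain ⟨r, hr⟩ : ∃ r, l a.succ = r + l 0 := ⟨l a.succ - l 0, by omega⟩
        rw [hq, hr]
        have e1 : q + p 0 + 1 - p 0 - 1 = q := by omega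
        have e2 : r + l 0 - l 0 = r := by omega
        rw [e1, e2, pow_succ, pow_add, pow_add]
        ring
    rw [e]
    exact ⟨h7, h8⟩

/-- the determinant of the coefficients of `y^b`, `b < m`, is positive -/
theorem tp_det {m : ℕ} {p l : Fin m → ℕ} (hp : StrictMono p) (hl : Monotone l) {τ : ℝ}
    (hτ : 0 ≤ τ) :
    0 < (Matrix.of fun a b : Fin m =>
      ((1 + X) ^ p a * (1 + C τ * X) ^ l a : ℝ[X]).coeff (b : ℕ)).det := by
  have h := (tp_jet m p l hp hl hτ).2
  unfold PI mn at h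
  rw [← Matrix.det_transpose] at h
  convert h using 2
  ext a b
  simp [cz]

end Pool.GTR.S
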