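import Pool.Agent.GTR.S.Defs
import Pool.Agent.GTR.S.TPL

/-!
# GTR / S / Rank: `M^τ(x)` has rank `m` for separated nodes
-/

set_option autoImplicit false

open Polynomial Finset Filter Topology

noncomputable section

namespace Pool.GTR.S

/-- coefficientwise convergence -/
def CT {ι : Type*} (F : Filter ι) (p : ι → ℝ[X]) (q : ℝ[X]) : Prop :=
  ∀ b, Tendsto (fun i => (p i).coeff b) F (𝓝 (q.coeff b))

lemma CT.const {ι : Type*} (F : Filter ι) (q : ℝ[X]) : CT F (fun _ => q) q := fun _ =>
  tendsto_const_nhds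

lemma CT.mul {ι : Type*} {F : Filter ι} {p p' : ι → ℝ[X]} {q q' : ℝ[X]} (h : CT F p q)
    (h' : CT F p' q') : CT F (fun i => p i * p' i) (q * q') := by
  intro b
  simp only [coeff_mul]
  exact tendsto_finsetSum _ fun x _ => (h x.1).mul (h' x.2)

lemma CT.pow {ι : Type*} {F : Filter ι} {p : ι → ℝ[X]} {q : ℝ[X]} (h : CT F p q) (n : ℕ) :
    CT F (fun i => p i ^ n) (q ^ n) := by
  induction n with
  | zero => simpa using CT.const F 1
  | succ n ih => simpa [pow_succ] using ih.mul h

lemma CT.prod {ι κ : Type*} {F : Filter ι} {S : Finset κ} {p : ι → κ → ℝ[X]} {q : κ → ℝ[X]}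
    (h : ∀ r ∈ S, CT F (fun i => p i r) (q r)) :
    CT F (fun i => ∏ r ∈ S, p i r) (∏ r ∈ S, q r) := by
  classical
  induction S using Finset.induction_on with
  | empty => simpa using CT.const F 1
  | insert a S ha ih =>
    simp only [prod_insert ha]
    exact (h a (mem_insert_self _ _)).mul (ih fun r hr => h r (mem_insert_of_mem hr))

lemma lf_coeff (a b : ℝ) (j : ℕ) :
    (lf a b).coeff j = if j = 0 then a else if j = 1 then b else 0 := by
  unfold lf
  rw [coeff_add, coeff_C, coeff_C_mul, coeff_X]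
  rcases j with _ | _ | j
  · simp
  · simp
  · simp

lemma CT.lf {ι : Type*} {F : Filter ι} {a b : ι → ℝ} {a' b' : ℝ} (ha : Tendsto a F (𝓝 a'))
    (hb : Tendsto b F (𝓝 b')) : CT F (fun i => lf (a i) (b i)) (lf a' b') := by
  intro j
  simp only [lf_coeff]
  split_ifs
  · exact ha
  · exact hb
  · exact tendsto_const_nhds

/-- the matrix of a family of row polynomials -/
def rm {m : ℕ} (p : Fin (m + 1) → ℝ[X]) : Fin m → Fin (m + 1) → ℝ := fun b a => (p a).coeff (b : ℕ)

lemma rm_ev {ι : Type*} {m : ℕ} {F : Filter ι} {p : ι → Fin (m + 1) → ℝ[X]}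
    {q : Fin (m + 1) → ℝ[X]} (h : ∀ a, CT F (fun i => p i a) (q a))
    (hq : LinearIndependent ℝ (rm q)) : ∀ᶠ i in F, LinearIndependent ℝ (rm (p i)) := by
  have h1 : Tendsto (fun i => rm (p i)) F (𝓝 (rm q)) := by
    refine tendsto_pi_nhds.2 fun b => tendsto_pi_nhds.2 fun a => ?_
    exact h a b
  exact h1.eventually (isOpen_setOfPred_linearIndependent.mem_nhds hq)

lemma li_of_det {m : ℕ} {p : Fin (m + 1) → ℝ[X]} (e : Fin m → Fin (m + 1))
    (h : (Matrix.of fun a b : Fin m => (p (e a)).coeff (b : ℕ)).det ≠ 0) :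
    LinearIndependent ℝ (rm p) := by
  have h1 : LinearIndependent ℝ
      (Matrix.transpose (Matrix.of fun a b : Fin m => (p (e a)).coeff (b : ℕ))).row := by
    rw [Matrix.linearIndependent_rows_iff_isUnit, Matrix.isUnit_iff_isUnit_det,
      Matrix.det_transpose]
    exact isUnit_iff_ne_zero.2 h
  refine LinearIndependent.of_comp (LinearMap.funLeft ℝ ℝ e) ?_
  exact h1

/-- scaling of the rows and of the variable -/
lemma li_scale {m : ℕ} {p q : Fin (m + 1) → ℝ[X]} (D : Fin (m + 1) → ℝ) (ρ : ℝ) (hρ : ρ ≠ 0)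
    (h : ∀ a (b : ℕ), (p a).coeff b * ρ ^ b = D a * (q a).coeff b) (hD : ∀ a, D a ≠ 0)
    (hq : LinearIndependent ℝ (rm q)) : LinearIndependent ℝ (rm p) := by
  rw [Fintype.linearIndependent_iff] at hq ⊢
  intro g hg b
  have h1 := hq (fun b => g b * (ρ ^ (b : ℕ))⁻¹) ?_ b
  · have h2 : (ρ ^ (b : ℕ))⁻¹ ≠ 0 := inv_ne_zero (pow_ne_zero _ hρ)
    exact (mul_eq_zero.1 h1).resolve_right h2
  · funext a
    have h3 := congrFun hg a
    simp only [Finset.sum_apply, Pi.smul_apply, smul_eq_mul, Pi.zero_apply] at h3 ⊢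
    have h4 : ∀ b : Fin m, g b * rm p b a =
        D a * (g b * (ρ ^ (b : ℕ))⁻¹ * rm q b a) := by
      intro b
      have h5 := h a (b : ℕ)
      have h6 : ρ ^ (b : ℕ) ≠ 0 := pow_ne_zero _ hρ
      unfold rm
      have h7 : (p a).coeff (b : ℕ) = D a * (q a).coeff (b : ℕ) * (ρ ^ (b : ℕ))⁻¹ := by
        rw [← h5]
        field_simp
      rw [h7]
      ring
    rw [Finset.sum_congr rfl fun b _ => h4 b, ← Finset.mul_sum] at h3
    exact (mul_eq_zero.1 h3).resolve_left (hD a)

/-! ### the three limit matrices -/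

/-- span of the homogeneous polynomials in `u, v` -/
lemma span_uv (u v : ℝ[X]) (A B C' D : ℝ) (i j : ℕ) :
    (C A * u + C B * v) ^ i * (C C' * u + C D * v) ^ j ∈
      Submodule.span ℝ (Set.range fun a : Fin (i + j + 1) => u ^ (i + j - (a : ℕ)) * v ^ (a : ℕ)) := by
  have key : ∀ (n : ℕ) (A B : ℝ) (p : ℝ[X]),
      p ∈ Submodule.span ℝ (Set.range fun a : Fin (n + 1) => u ^ (n - (a : ℕ)) * v ^ (a : ℕ)) →
      p * (C A * u + C B * v) ∈
        Submodule.span ℝ (Set.range fun a : Fin (n + 1 + 1) =>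
          u ^ (n + 1 - (a : ℕ)) * v ^ (a : ℕ)) := by
    intro n A B p hp
    induction hp using Submodule.span_induction with
    | mem x hx =>
      obtain ⟨a, rfl⟩ := hx
      have e : (u ^ (n - (a : ℕ)) * v ^ (a : ℕ)) * (C A * u + C B * v) =
          A • (u ^ (n + 1 - ((a.castSucc : Fin (n + 1 + 1)) : ℕ)) *
            v ^ ((a.castSucc : Fin (n + 1 + 1)) : ℕ)) +
          B • (u ^ (n + 1 - ((a.succ : Fin (n + 1 + 1)) : ℕ)) *
            v ^ ((a.succ : Fin (n + 1 + 1)) : ℕ)) := by
        rw [smul_eq_C_mul, smul_eq_C_mul, Fin.val_castSucc, Fin.val_succ]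
        have h1 : n + 1 - (a : ℕ) = n - (a : ℕ) + 1 := by omega
        have h2 : n + 1 - ((a : ℕ) + 1) = n - (a : ℕ) := by omega
        rw [h1, h2, pow_succ, pow_succ]
        ring
      dsimp only
      rw [e]
      exact Submodule.add_mem _
        (Submodule.smul_mem _ _ (Submodule.subset_span ⟨a.castSucc, rfl⟩))
        (Submodule.smul_mem _ _ (Submodule.subset_span ⟨a.succ, rfl⟩))
    | zero => simp
    | add x y _ _ hx hy =>
      rw [add_mul]
      exact Submodule.add_mem _ hx hy
    | smul r x _ hx =>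
      rw [smul_mul_assoc]
      exact Submodule.smul_mem _ _ hx
  have h1 : ∀ i : ℕ, (C A * u + C B * v) ^ i ∈
      Submodule.span ℝ (Set.range fun a : Fin (i + 1) => u ^ (i - (a : ℕ)) * v ^ (a : ℕ)) := by
    intro i
    induction i with
    | zero =>
      refine Submodule.subset_span ⟨0, ?_⟩
      simp
    | succ i ih =>
      rw [pow_succ]
      exact key i A B _ ih
  induction j with
  | zero => simpa using h1 i
  | succ j ih =>
    rw [pow_succ, ← mul_assoc]
    exact key (i + j) C' D _ ih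

/-- regime A: `s ≠ 0`, all nodes `0` -/
lemma li_A {m : ℕ} {c s : ℝ} (h : c ^ 2 + s ^ 2 = 1) (G : ℝ[X]) (hG : G.coeff 0 ≠ 0) :
    LinearIndependent ℝ
      (rm (m := m) fun a => lf c (-s) ^ (m - (a : ℕ)) * lf s c ^ (a : ℕ) * G) := by
  rw [Fintype.linearIndependent_iff]
  intro g hg
  -- the functional
  let φ : ℝ[X] →ₗ[ℝ] ℝ := ∑ b : Fin m, g b • (lcoeff ℝ (b : ℕ) ∘ₗ LinearMap.mulRight ℝ G)
  have hφ : ∀ p : ℝ[X], φ p = ∑ b : Fin m, g b * (p * G).coeff (b : ℕ) := by
    intro p
    simp [φ]
  have h1 : ∀ a : Fin (m + 1), φ (lf c (-s) ^ (m - (a : ℕ)) * lf s c ^ (a : ℕ)) = 0 := by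
    intro a
    rw [hφ]
    have h2 := congrFun hg a
    simpa [rm] using h2
  have h2 : ∀ p ∈ Submodule.span ℝ (Set.range fun a : Fin (m + 1) =>
      lf c (-s) ^ (m - (a : ℕ)) * lf s c ^ (a : ℕ)), φ p = 0 := by
    intro p hp
    induction hp using Submodule.span_induction with
    | mem x hx =>
      obtain ⟨a, rfl⟩ := hx
      exact h1 a
    | zero => simp
    | add x y _ _ hx hy => rw [map_add, hx, hy, add_zero]
    | smul r x _ hx => rw [map_smul, hx, smul_zero]
  have h3 : ∀ j : ℕ, j ≤ m → φ (X ^ j) = 0 := by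
    intro j hj
    apply h2
    have h4 := span_uv (lf c (-s)) (lf s c) (-s) c c s j (m - j)
    have e : j + (m - j) = m := by omega
    rw [e] at h4
    have e1 : C (-s) * lf c (-s) + C c * lf s c = X := by
      unfold lf
      have : C (c ^ 2 + s ^ 2) = (1 : ℝ[X]) := by rw [h, C_1]
      rw [C_add, C_pow, C_pow] at this
      rw [C_neg]
      linear_combination X * this
    have e2 : C c * lf c (-s) + C s * lf s c = 1 := by
      unfold lf
      have : C (c ^ 2 + s ^ 2) = (1 : ℝ[X]) := by rw [h, C_1]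
      rw [C_add, C_pow, C_pow] at this
      rw [C_neg]
      linear_combination this
    rw [e1, e2, one_pow, mul_one] at h4
    exact h4
  by_contra hcon
  push Not at hcon
  obtain ⟨b0, hb0⟩ := hcon
  obtain ⟨b, hb, hmax⟩ := Finset.exists_max_image (univ.filter fun b => g b ≠ 0)
    (fun b => (b : ℕ)) ⟨b0, by simpa using hb0⟩
  rw [mem_filter] at hb
  have h4 := h3 (b : ℕ) b.2.le
  rw [hφ, Finset.sum_eq_single b] at h4
  · have h5 : (X ^ (b : ℕ) * G).coeff (b : ℕ) = G.coeff 0 := by
      have := coeff_X_pow_mul G (b : ℕ) 0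
      rwa [zero_add] at this
    rw [h5] at h4
    exact (mul_ne_zero hb.2 hG) h4
  · intro b' _ hne
    by_cases hg' : g b' = 0
    · rw [hg', zero_mul]
    · have h6 := hmax b' (by simpa using hg')
      have h7 : (b' : ℕ) < b := by
        rcases h6.lt_or_eq with h | h
        · exact h
        · exact absurd (Fin.ext h) hne
      rw [coeff_X_pow_mul', if_neg (by omega), mul_zero]
  · simp

/-- the limit rows at a small scale -/
def limrow {m N : ℕ} (w : Fin N → Fin (m + 1)) (α β : Fin N → ℝ) (τ c σ : ℝ) (a : Fin (m + 1)) :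
    ℝ[X] :=
  lf c 0 ^ (m - (a : ℕ)) * lf σ c ^ (a : ℕ) *
    ∏ r, if w r = a then lf (α r * c - β r * σ) (-(β r * c * τ)) else 1

lemma lf_comp (a b ρ : ℝ) : (lf a b).comp (C ρ * X) = lf a (b * ρ) := by
  unfold lf
  simp only [add_comp, C_comp, mul_comp, X_comp, C_mul]
  ring

lemma lf_smul (a b ρ : ℝ) : lf (ρ * a) (ρ * b) = C ρ * lf a b := by
  unfold lf
  simp only [C_mul]
  ring

lemma lf_zero (a : ℝ) : lf a 0 = C a := by
  unfold lf
  simp

lemma prod_if {ι : Type*} [Fintype ι] (P : ι → Prop) [DecidablePred P] (x : ℝ[X]) :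
    (∏ r, if P r then x else 1) = x ^ (univ.filter P).card := by
  rw [Finset.prod_ite, prod_const, prod_const_one, mul_one]

/-- regime C: the scale is below all the nodes -/
lemma li_C {m N : ℕ} (w : Fin N → Fin (m + 1)) {τ c σ : ℝ} (hc : c ^ 2 = 1) :
    LinearIndependent ℝ (rm (limrow w (fun _ => 1) (fun _ => 0) τ c σ)) := by
  have hc0 : c ≠ 0 := by
    rintro rfl
    norm_num at hc
  refine li_scale (q := fun a => lf σ c ^ (a : ℕ))
    (fun a => c ^ (m - (a : ℕ)) * ∏ r, if w r = a then c else 1) 1 one_ne_zero ?_ ?_ ?_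
  · intro a b
    rw [one_pow, mul_one, ← coeff_C_mul]
    congr 1
    unfold limrow
    rw [C_mul, C_pow, map_prod]
    have h1 : ∀ r, (C (if w r = a then c else 1) : ℝ[X]) =
        if w r = a then lf ((1 : ℝ) * c - 0 * σ) (-(0 * c * τ)) else 1 := by
      intro r
      split_ifs
      · rw [one_mul, zero_mul, sub_zero, zero_mul, zero_mul, neg_zero, lf_zero]
      · rfl
    rw [Finset.prod_congr rfl fun r _ => h1 r, lf_zero]
    ring
  · intro a
    refine mul_ne_zero (pow_ne_zero _ hc0) (Finset.prod_ne_zero_iff.2 fun r _ => ?_)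
    split_ifs
    · exact hc0
    · exact one_ne_zero
  · refine li_of_det Fin.castSucc ?_
    have hdeg : (lf σ c).natDegree ≤ 1 := by
      refine natDegree_le_iff_coeff_eq_zero.2 fun n hn => ?_
      rw [lf_coeff, if_neg (by omega), if_neg (by omega)]
    rw [Matrix.det_of_isLowerTriangular]
    · refine Finset.prod_ne_zero_iff.2 fun a _ => ?_
      rw [Matrix.of_apply, Fin.val_castSucc]
      have h1 := coeff_pow_of_natDegree_le (m := (a : ℕ)) hdeg
      rw [mul_one] at h1
      rw [h1, lf_coeff, if_neg one_ne_zero, if_pos rfl]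
      exact pow_ne_zero _ hc0
    · intro a b hab
      have hab' : (a : ℕ) < b := hab
      rw [Matrix.of_apply, Fin.val_castSucc]
      refine coeff_eq_zero_of_natDegree_lt ?_
      calc (lf σ c ^ (a : ℕ)).natDegree ≤ (a : ℕ) * (lf σ c).natDegree := natDegree_pow_le
        _ ≤ (a : ℕ) * 1 := Nat.mul_le_mul_left _ hdeg
        _ < b := by omega

lemma prod_word {m N : ℕ} (w : Fin N → Fin (m + 1)) (a : Fin (m + 1)) (t : ℕ) (c σ τ : ℝ) :
    (∏ r : Fin N, if w r = a then (if (r : ℕ) < t then C (-σ) * (1 + C τ * X) else C c) else 1 :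
      ℝ[X]) = C (∏ r : Fin N, if w r = a then (if (r : ℕ) < t then -σ else c) else 1) *
        (1 + C τ * X) ^ (univ.filter fun r : Fin N => (r : ℕ) < t ∧ w r = a).card := by
  rw [← prod_if, map_prod, ← Finset.prod_mul_distrib]
  refine Finset.prod_congr rfl fun r _ => ?_
  by_cases h1 : w r = a
  · by_cases h2 : (r : ℕ) < t
    · rw [if_pos h1, if_pos h2, if_pos h1, if_pos h2, if_pos ⟨h2, h1⟩]
    · rw [if_pos h1, if_neg h2, if_pos h1, if_neg h2, if_neg (fun h => h2 h.1), mul_one]
  · rw [if_neg h1, if_neg h1, if_neg (fun h => h1 h.2), mul_one, C_1]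

/-- regime B: the scale is `|s|` -/
lemma li_B {m N l : ℕ} {w : Fin N → Fin (m + 1)} (hw : Bal l w) {α β : Fin N → ℝ}
    (hab : ∀ r, α r + β r = 1) (hsep : ∀ r s, r < s → β s ≠ 0 → α r = 0) {τ c σ : ℝ}
    (hc : c ^ 2 = 1) (hσ : σ ^ 2 = 1) (hτ : 0 ≤ τ) :
    LinearIndependent ℝ (rm (limrow w α β τ c σ)) := by
  have hc0 : c ≠ 0 := by
    rintro rfl
    norm_num at hc
  have hσ0 : σ ≠ 0 := by
    rintro rfl
    norm_num at hσ
  -- the threshold
  obtain ⟨t, ht⟩ : ∃ t : ℕ, ∀ r : Fin N, β r ≠ 0 ↔ (r : ℕ) < t := by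
    by_cases hT : ∃ r, β r ≠ 0
    · obtain ⟨r0, hr0⟩ := hT
      obtain ⟨s, hs, hmax⟩ := Finset.exists_max_image (univ.filter fun r => β r ≠ 0)
        (fun r => (r : ℕ)) ⟨r0, by simpa using hr0⟩
      rw [mem_filter] at hs
      refine ⟨(s : ℕ) + 1, fun r => ⟨fun h => ?_, fun h => ?_⟩⟩
      · have := hmax r (by simpa using h)
        omega
      · rcases Nat.lt_or_ge (r : ℕ) s with h1 | h1
        · have h2 := hsep r s h1 hs.2
          have h3 := hab r
          rw [h2, zero_add] at h3
          rw [h3]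
          exact one_ne_zero
        · have h2 : r = s := Fin.ext (by omega)
          rw [h2]
          exact hs.2
    · push Not at hT
      exact ⟨0, fun r => ⟨fun h => absurd (hT r) h, fun h => absurd h (Nat.not_lt_zero _)⟩⟩
  -- the exceptional letter
  obtain ⟨j0, hj0⟩ : ∃ j0 : Fin (m + 1), ∀ r, w r ≠ j0 → β r = 0 ∨ β r = 1 := by
    by_cases hE : ∃ r, β r ≠ 0 ∧ β r ≠ 1
    · obtain ⟨r, hr0, hr1⟩ := hE
      refine ⟨w r, fun r' hr' => ?_⟩
      by_contra hcon
      push Not at hcon
      rcases lt_trichotomy r r' with h | h | h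
      · have h2 := hsep r r' h hcon.1
        have h3 := hab r
        rw [h2, zero_add] at h3
        exact hr1 h3
      · exact hr' (by rw [h])
      · have h2 := hsep r' r h hr0
        have h3 := hab r'
        rw [h2, zero_add] at h3
        exact hcon.2 h3
    · push Not at hE
      refine ⟨0, fun r _ => ?_⟩
      by_cases h : β r = 0
      · exact Or.inl h
      · exact Or.inr (hE r h)
  have hρ : c * σ ≠ 0 := mul_ne_zero hc0 hσ0
  refine li_scale (q := fun a => if a = j0 then (limrow w α β τ c σ j0).comp (C (c * σ) * X) else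
      (1 + X) ^ (a : ℕ) * (1 + C τ * X) ^ (univ.filter fun r : Fin N => (r : ℕ) < t ∧ w r = a).card)
    (fun a => if a = j0 then 1 else c ^ (m - (a : ℕ)) * σ ^ (a : ℕ) *
      ∏ r : Fin N, if w r = a then (if (r : ℕ) < t then -σ else c) else 1) (c * σ) hρ ?_ ?_ ?_
  · intro a b
    rw [← comp_C_mul_X_coeff, ← coeff_C_mul]
    congr 1
    by_cases ha : a = j0
    · rw [if_pos ha, if_pos ha, ha, C_1, one_mul]
    · have hD : (C (c ^ (m - (a : ℕ)) * σ ^ (a : ℕ) *
          ∏ r : Fin N, if w r = a then (if (r : ℕ) < t then -σ else c) else 1) : ℝ[X]) =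
          C c ^ (m - (a : ℕ)) * C σ ^ (a : ℕ) *
          C (∏ r : Fin N, if w r = a then (if (r : ℕ) < t then -σ else c) else 1) := by
        rw [C_mul, C_mul, C_pow, C_pow]
      rw [if_neg ha, if_neg ha, hD]
      have h1 : C (∏ r : Fin N, if w r = a then (if (r : ℕ) < t then -σ else c) else 1) *
          (1 + C τ * X) ^ (univ.filter fun r : Fin N => (r : ℕ) < t ∧ w r = a).card =
          ∏ r, if w r = a then (lf (α r * c - β r * σ) (-(β r * c * τ))).comp (C (c * σ) * X)
            else 1 := by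
        rw [← prod_word]
        refine Finset.prod_congr rfl fun r _ => ?_
        by_cases h2 : w r = a
        · rw [if_pos h2, if_pos h2, lf_comp]
          rcases hj0 r (by rw [h2]; exact ha) with h3 | h3
          · have h4 : α r = 1 := by
              have := hab r
              rwa [h3, add_zero] at this
            have h5 : ¬ ((r : ℕ) < t) := fun h => (ht r).2 h h3
            rw [if_neg h5, h3, h4, one_mul, zero_mul, sub_zero, zero_mul, zero_mul, neg_zero,
              zero_mul, lf_zero]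
          · have h4 : α r = 0 := by
              have := hab r
              rw [h3] at this
              linarith
            have h5 : (r : ℕ) < t := (ht r).1 (by rw [h3]; exact one_ne_zero)
            rw [if_pos h5, h3, h4]
            have e1 : (0 : ℝ) * c - 1 * σ = (-σ) * 1 := by ring
            have e2 : -(1 * c * τ) * (c * σ) = (-σ) * τ := by
              linear_combination (-(τ * σ)) * hc
            rw [e1, e2, lf_smul]
            unfold lf
            rw [C_1]
        · rw [if_neg h2, if_neg h2]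
      unfold limrow
      rw [mul_comp, mul_comp, pow_comp, pow_comp, Polynomial.prod_comp, lf_comp, lf_comp]
      have h6 : ∀ r, (if w r = a then lf (α r * c - β r * σ) (-(β r * c * τ)) else 1 : ℝ[X]).comp
          (C (c * σ) * X) = if w r = a then
            (lf (α r * c - β r * σ) (-(β r * c * τ))).comp (C (c * σ) * X) else 1 := by
        intro r
        split_ifs
        · rfl
        · simp
      rw [Finset.prod_congr rfl fun r _ => h6 r, ← h1]
      have e3 : lf σ (c * (c * σ)) = C σ * (1 + X) := by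
        have : c * (c * σ) = σ * 1 := by linear_combination σ * hc
        rw [this]
        have h7 := lf_smul 1 1 σ
        rw [mul_one] at h7 ⊢
        rw [h7]
        unfold lf
        rw [C_1, one_mul]
      rw [e3, zero_mul, lf_zero, mul_pow]
      ring
  · intro a
    split_ifs with ha
    · exact one_ne_zero
    · refine mul_ne_zero (mul_ne_zero (pow_ne_zero _ hc0) (pow_ne_zero _ hσ0))
        (Finset.prod_ne_zero_iff.2 fun r _ => ?_)
      split_ifs
      · exact neg_ne_zero.2 hσ0
      · exact hc0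
      · exact one_ne_zero
  · refine li_of_det j0.succAbove ?_
    have h1 := tp_det (m := m) (p := fun a => ((j0.succAbove a : Fin (m + 1)) : ℕ))
      (l := fun a => (univ.filter fun r : Fin N => (r : ℕ) < t ∧ w r = j0.succAbove a).card)
      (fun a b h => Fin.strictMono_succAbove j0 h)
      (fun a b h => hw.bal t _ _ ((Fin.strictMono_succAbove j0).monotone h)) hτ
    convert h1.ne' using 3
    funext a b
    rw [if_neg (Fin.succAbove_ne j0 a)]

end Pool.GTR.S
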