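import Pool.Agent.GTR.S.Rank

/-!
# GTR / S / RankM: for separated nodes `M^τ(x)` has rank `m` for all `x` and all `τ ∈ [0,1]`
-/

set_option autoImplicit false

open Polynomial Finset Filter Topology

noncomputable section

namespace Pool.GTR.S

lemma ult_lim {ι : Type*} {U : Ultrafilter ι} {f : ι → ℝ} {a b : ℝ}
    (h : ∀ᶠ i in (U : Filter ι), f i ∈ Set.Icc a b) :
    ∃ x ∈ Set.Icc a b, Tendsto f U (𝓝 x) := by
  obtain ⟨x, hx, h1⟩ := isCompact_Icc.ultrafilter_le_nhds (U.map f) (le_principal_iff.2 h)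
  exact ⟨x, hx, h1⟩

/-- passage to the limit at the scale `ρ` -/
lemma scale_ev {ι : Type*} {F : Filter ι} {m N : ℕ} {w : Fin N → Fin (m + 1)}
    {z : ι → Fin N → ℝ} {τ c s ρ σ : ι → ℝ} {τ' c' σ' : ℝ} {α' β' : Fin N → ℝ}
    (hz : ∀ᶠ i in F, ∀ r, 0 < z i r) (hρ : ∀ᶠ i in F, 0 < ρ i) (hρ0 : Tendsto ρ F (𝓝 0))
    (hs : ∀ᶠ i in F, s i = ρ i * σ i) (hτ : Tendsto τ F (𝓝 τ')) (hc : Tendsto c F (𝓝 c'))
    (hσ : Tendsto σ F (𝓝 σ')) (hα : ∀ r, Tendsto (fun i => z i r / (z i r + ρ i)) F (𝓝 (α' r)))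
    (hβ : ∀ r, Tendsto (fun i => ρ i / (z i r + ρ i)) F (𝓝 (β' r)))
    (hli : LinearIndependent ℝ (rm (limrow w α' β' τ' c' σ'))) :
    ∀ᶠ i in F, LinearIndependent ℝ (rm (rowp w (z i) (τ i) (c i) (s i))) := by
  have h1 := rm_ev (F := F) (p := fun i a => lf (c i) (-(ρ i ^ 2 * σ i)) ^ (m - (a : ℕ)) *
    lf (σ i) (c i) ^ (a : ℕ) * ∏ r, if w r = a then
      lf (z i r / (z i r + ρ i) * c i - ρ i / (z i r + ρ i) * σ i)
        (-(z i r / (z i r + ρ i) * (ρ i ^ 2 * σ i * τ i)) - ρ i / (z i r + ρ i) * c i * τ i)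
      else 1) (q := limrow w α' β' τ' c' σ') ?_ hli
  · filter_upwards [h1, hz, hρ, hs] with i h2 h3 h4 h5
    refine li_scale (fun a => ρ i ^ (a : ℕ) * ∏ r, if w r = a then (z i r + ρ i) else 1) (ρ i)
      h4.ne' ?_ ?_ h2
    · intro a b
      rw [← comp_C_mul_X_coeff, ← coeff_C_mul]
      congr 1
      unfold rowp
      rw [mul_comp, mul_comp, pow_comp, pow_comp, Polynomial.prod_comp, lf_comp, lf_comp]
      have h6 : ∀ r, (if w r = a then lf (z i r * c i - s i) (-(z i r * s i * τ i) - c i * τ i)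
          else 1 : ℝ[X]).comp (C (ρ i) * X) = C (if w r = a then (z i r + ρ i) else 1) *
          if w r = a then
            lf (z i r / (z i r + ρ i) * c i - ρ i / (z i r + ρ i) * σ i)
            (-(z i r / (z i r + ρ i) * (ρ i ^ 2 * σ i * τ i)) - ρ i / (z i r + ρ i) * c i * τ i)
          else 1 := by
        intro r
        have hn : z i r + ρ i ≠ 0 := by
          have := h3 r
          positivity
        split_ifs
        · rw [lf_comp, ← lf_smul, h5]
          congr 1
          · field_simp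
          · field_simp
        · simp
      rw [Finset.prod_congr rfl fun r _ => h6 r, Finset.prod_mul_distrib, ← map_prod, C_mul, C_pow]
      have e1 : lf (s i) (c i * ρ i) = C (ρ i) * lf (σ i) (c i) := by
        rw [← lf_smul, h5, mul_comm (c i)]
      have e2 : -s i * ρ i = -(ρ i ^ 2 * σ i) := by
        rw [h5]
        ring
      rw [e1, e2, mul_pow]
      ring
    · intro a
      refine mul_ne_zero (pow_ne_zero _ h4.ne') (Finset.prod_ne_zero_iff.2 fun r _ => ?_)
      split_ifs
      · have := h3 r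
        positivity
      · exact one_ne_zero
  · intro a
    unfold limrow
    have t1 : Tendsto (fun i => -(ρ i ^ 2 * σ i)) F (𝓝 0) := by
      have := ((hρ0.pow 2).mul hσ).neg
      simpa using this
    refine ((CT.lf hc t1).pow _).mul ((CT.lf hσ hc).pow _) |>.mul (CT.prod fun r _ => ?_)
    split_ifs
    · refine CT.lf (((hα r).mul hc).sub ((hβ r).mul hσ)) ?_
      have t2 : Tendsto (fun i => -(z i r / (z i r + ρ i) * (ρ i ^ 2 * σ i * τ i)) -
          ρ i / (z i r + ρ i) * c i * τ i) F (𝓝 (-(α' r * (0 ^ 2 * σ' * τ')) - β' r * c' * τ')) :=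
        ((hα r).mul (((hρ0.pow 2).mul hσ).mul hτ)).neg.sub (((hβ r).mul hc).mul hτ)
      have e : -(α' r * (0 ^ 2 * σ' * τ')) - β' r * c' * τ' = -(β' r * c' * τ') := by ring
      rwa [e] at t2
    · exact CT.const _ _

theorem rank_ev {ι : Type*} {F : Filter ι} {m N l : ℕ} {w : Fin N → Fin (m + 1)} (hw : Bal l w)
    (hN : 0 < N) {z : ι → Fin N → ℝ} (hz : Sepz F z) :
    ∀ᶠ i in F, ∀ τ c s : ℝ, 0 ≤ τ → τ ≤ 1 → c ^ 2 + s ^ 2 = 1 →
      LinearIndependent ℝ (rm (rowp w (z i) τ c s)) := by
  by_contra hcon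
  rw [not_eventually] at hcon
  have hne := frequently_iff_neBot.1 hcon
  obtain ⟨U, hU⟩ : ∃ U : Ultrafilter ι, (U : Filter ι) ≤ F ⊓ 𝓟 {i | ¬ ∀ τ c s : ℝ, 0 ≤ τ → τ ≤ 1 →
      c ^ 2 + s ^ 2 = 1 → LinearIndependent ℝ (rm (rowp w (z i) τ c s))} :=
    Ultrafilter.exists_le _
  have hUF : (U : Filter ι) ≤ F := hU.trans inf_le_left
  have hbad : ∀ᶠ i in (U : Filter ι), ¬ ∀ τ c s : ℝ, 0 ≤ τ → τ ≤ 1 →
      c ^ 2 + s ^ 2 = 1 → LinearIndependent ℝ (rm (rowp w (z i) τ c s)) :=
    le_principal_iff.1 (hU.trans inf_le_right)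
  have hch : ∀ i, ∃ τ c s : ℝ, (¬ ∀ τ c s : ℝ, 0 ≤ τ → τ ≤ 1 →
      c ^ 2 + s ^ 2 = 1 → LinearIndependent ℝ (rm (rowp w (z i) τ c s))) →
      0 ≤ τ ∧ τ ≤ 1 ∧ c ^ 2 + s ^ 2 = 1 ∧ ¬ LinearIndependent ℝ (rm (rowp w (z i) τ c s)) := by
    intro i
    by_cases h : ∀ τ c s : ℝ, 0 ≤ τ → τ ≤ 1 →
      c ^ 2 + s ^ 2 = 1 → LinearIndependent ℝ (rm (rowp w (z i) τ c s))
    · exact ⟨0, 0, 0, fun h' => absurd h h'⟩
    · have h0 := h
      push Not at h0
      obtain ⟨τ, c, s, h1, h2, h3, h4⟩ := h0
      exact ⟨τ, c, s, fun _ => ⟨h1, h2, h3, h4⟩⟩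
  choose τ c s hch using hch
  have hev : ∀ᶠ i in (U : Filter ι), 0 ≤ τ i ∧ τ i ≤ 1 ∧ c i ^ 2 + s i ^ 2 = 1 ∧
      ¬ LinearIndependent ℝ (rm (rowp w (z i) (τ i) (c i) (s i))) := hbad.mono hch
  obtain ⟨τ', hτ', tτ⟩ := ult_lim (U := U) (f := τ) (a := 0) (b := 1)
    (hev.mono fun i h => ⟨h.1, h.2.1⟩)
  obtain ⟨c', -, tc⟩ := ult_lim (U := U) (f := c) (a := -1) (b := 1)
    (hev.mono fun i h => ⟨by nlinarith [h.2.2.1, sq_nonneg (s i)],
      by nlinarith [h.2.2.1, sq_nonneg (s i)]⟩)
  obtain ⟨s', -, ts⟩ := ult_lim (U := U) (f := s) (a := -1) (b := 1)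
    (hev.mono fun i h => ⟨by nlinarith [h.2.2.1, sq_nonneg (c i)],
      by nlinarith [h.2.2.1, sq_nonneg (c i)]⟩)
  have hcs : c' ^ 2 + s' ^ 2 = 1 := by
    refine tendsto_nhds_unique ((tc.pow 2).add (ts.pow 2)) ?_
    refine tendsto_const_nhds.congr' ?_
    filter_upwards [hev] with i h
    exact h.2.2.1.symm
  have hzp : ∀ᶠ i in (U : Filter ι), ∀ r, 0 < z i r := hz.pos.filter_mono hUF
  have hz0 : ∀ r, Tendsto (fun i => z i r) (U : Filter ι) (𝓝 0) := fun r => (hz.lim r).mono_left hUF
  have hzs : ∀ r r', r < r' → Tendsto (fun i => z i r / z i r') (U : Filter ι) (𝓝 0) :=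
    fun r r' h => (hz.sep r r' h).mono_left hUF
  suffices hgoal : ∀ᶠ i in (U : Filter ι),
      LinearIndependent ℝ (rm (rowp w (z i) (τ i) (c i) (s i))) by
    obtain ⟨i, h1, h2⟩ := (hgoal.and hev).exists
    exact h2.2.2.2 h1
  by_cases hs0 : s' = 0
  · subst hs0
    have hc2 : c' ^ 2 = 1 := by linarith
    by_cases hC : ∀ r, Tendsto (fun i => |s i| / z i r) (U : Filter ι) (𝓝 0)
    · -- regime C
      obtain ⟨r0, hr0⟩ : ∃ r0 : Fin N, (r0 : ℕ) = 0 := ⟨⟨0, hN⟩, rfl⟩
      obtain ⟨ρ, hρ⟩ : ∃ ρ : ι → ℝ, ρ = fun i => |s i| + z i r0 ^ 2 := ⟨_, rfl⟩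
      have hρp : ∀ᶠ i in (U : Filter ι), 0 < ρ i := by
        filter_upwards [hzp] with i h
        rw [hρ]
        have := h r0
        positivity
      have hρ0 : Tendsto ρ U (𝓝 0) := by
        rw [hρ]
        have h1 : Tendsto (fun i => |s i|) (U : Filter ι) (𝓝 0) := by simpa using ts.abs
        have h2 := h1.add ((hz0 r0).pow 2)
        simpa using h2
      obtain ⟨σ', -, tσ⟩ := ult_lim (U := U) (f := fun i => s i / ρ i) (a := -1) (b := 1) (by
        filter_upwards [hρp] with i h
        have h1 : |s i| ≤ ρ i := by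
          rw [hρ]
          have := sq_nonneg (z i r0)
          dsimp only
          linarith
        constructor
        · rw [le_div_iff₀ h]
          linarith [neg_abs_le (s i)]
        · rw [div_le_iff₀ h]
          linarith [le_abs_self (s i)])
      have hρz : ∀ r, Tendsto (fun i => ρ i / z i r) (U : Filter ι) (𝓝 0) := by
        intro r
        have h1 : Tendsto (fun i => z i r0 * (z i r0 / z i r)) (U : Filter ι) (𝓝 0) := by
          by_cases hr : r0 < r
          · simpa using (hz0 r0).mul (hzs r0 r hr)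
          · have h2 : r = r0 := Fin.ext (by
              have h3 : ¬ ((r0 : ℕ) < r) := hr
              omega)
            rw [h2]
            refine (hz0 r0).congr' ?_
            filter_upwards [hzp] with i h
            rw [div_self (h r0).ne', mul_one]
        have h2 := (hC r).add h1
        rw [add_zero] at h2
        refine h2.congr fun i => ?_
        rw [hρ]
        ring
      refine scale_ev (ρ := ρ) (σ := fun i => s i / ρ i) (σ' := σ') (α' := fun _ => 1)
        (β' := fun _ => 0) hzp hρp hρ0 ?_ tτ tc tσ ?_ ?_ (li_C w hc2)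
      · filter_upwards [hρp] with i h
        field_simp
      · intro r
        have h1 : Tendsto (fun i => (1 + ρ i / z i r)⁻¹) (U : Filter ι) (𝓝 (1 + 0)⁻¹) :=
          (tendsto_const_nhds.add (hρz r)).inv₀ (by norm_num)
        rw [add_zero, inv_one] at h1
        refine h1.congr' ?_
        filter_upwards [hzp, hρp] with i h h'
        have := h r
        field_simp
      · intro r
        have h1 : Tendsto (fun i => ρ i / z i r * (1 + ρ i / z i r)⁻¹) (U : Filter ι)
            (𝓝 (0 * (1 + 0)⁻¹)) :=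
          (hρz r).mul ((tendsto_const_nhds.add (hρz r)).inv₀ (by norm_num))
        rw [zero_mul] at h1
        refine h1.congr' ?_
        filter_upwards [hzp, hρp] with i h h'
        have := h r
        field_simp
    · -- regime B
      push Not at hC
      obtain ⟨r1, hr1⟩ := hC
      have hsne : ∀ᶠ i in (U : Filter ι), s i ≠ 0 := by
        rcases U.em (fun i => s i = 0) with h | h
        · exfalso
          apply hr1
          refine tendsto_const_nhds.congr' ?_
          filter_upwards [h] with i hi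
          rw [hi, abs_zero, zero_div]
        · exact h
      have hρp : ∀ᶠ i in (U : Filter ι), 0 < |s i| := hsne.mono fun i h => abs_pos.2 h
      have hρ0 : Tendsto (fun i => |s i|) (U : Filter ι) (𝓝 0) := by simpa using ts.abs
      have hσs : ∀ᶠ i in (U : Filter ι), (s i / |s i|) ^ 2 = 1 := by
        filter_upwards [hsne] with i h
        rw [div_pow, sq_abs, div_self (pow_ne_zero 2 h)]
      obtain ⟨σ', -, tσ⟩ := ult_lim (U := U) (f := fun i => s i / |s i|) (a := -1) (b := 1) (by
        filter_upwards [hσs] with i h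
        constructor
        · nlinarith
        · nlinarith)
      have hσ2 : σ' ^ 2 = 1 := by
        refine tendsto_nhds_unique (tσ.pow 2) (tendsto_const_nhds.congr' ?_)
        filter_upwards [hσs] with i h
        exact h.symm
      have hα : ∀ r, ∃ x ∈ Set.Icc (0 : ℝ) 1,
          Tendsto (fun i => z i r / (z i r + |s i|)) (U : Filter ι) (𝓝 x) := by
        intro r
        refine ult_lim ?_
        filter_upwards [hzp] with i h
        have h1 := h r
        have h2 := abs_nonneg (s i)
        exact ⟨by positivity, (div_le_one (by positivity)).2 (by linarith)⟩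
      have hβ : ∀ r, ∃ x ∈ Set.Icc (0 : ℝ) 1,
          Tendsto (fun i => |s i| / (z i r + |s i|)) (U : Filter ι) (𝓝 x) := by
        intro r
        refine ult_lim ?_
        filter_upwards [hzp] with i h
        have h1 := h r
        have h2 := abs_nonneg (s i)
        exact ⟨by positivity, (div_le_one (by positivity)).2 (by linarith)⟩
      choose α' hα' tα using hα
      choose β' hβ' tβ using hβ
      refine scale_ev (ρ := fun i => |s i|) (σ := fun i => s i / |s i|) hzp hρp hρ0 ?_ tτ tc tσ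
        tα tβ (li_B hw ?_ ?_ hc2 hσ2 hτ'.1)
      · filter_upwards [hρp] with i h
        field_simp
      · intro r
        refine tendsto_nhds_unique ((tα r).add (tβ r)) (tendsto_const_nhds.congr' ?_)
        filter_upwards [hzp] with i h
        have h1 := h r
        have h2 := abs_nonneg (s i)
        rw [← add_div, div_self (by positivity)]
      · intro r r' hr hb
        have h1 : Tendsto (fun i => z i r / z i r' * (z i r' / (z i r' + |s i|)) *
            (|s i| / (z i r' + |s i|))⁻¹) (U : Filter ι) (𝓝 (0 * α' r' * (β' r')⁻¹)) :=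
          ((hzs r r' hr).mul (tα r')).mul ((tβ r').inv₀ hb)
        rw [zero_mul, zero_mul] at h1
        refine tendsto_nhds_unique (tα r) (squeeze_zero' ?_ ?_ h1)
        · filter_upwards [hzp] with i h
          have h1 := h r
          have h2 := abs_nonneg (s i)
          positivity
        · filter_upwards [hzp, hρp] with i h h'
          have h1 := h r
          have h2 := h r'
          have e : z i r / z i r' * (z i r' / (z i r' + |s i|)) *
              (|s i| / (z i r' + |s i|))⁻¹ = z i r / |s i| := by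
            field_simp
          rw [e]
          exact div_le_div_of_nonneg_left h1.le h' (by linarith)
  · -- regime A
    have h1 := rm_ev (F := (U : Filter ι)) (p := fun i => rowp w (z i) (τ i) (c i) (s i))
      (q := fun a => lf c' (-s') ^ (m - (a : ℕ)) * lf s' c' ^ (a : ℕ) *
        (lf (-s') (-(c' * τ')) ^ l)) ?_ (li_A hcs _ ?_)
    · exact h1
    · intro a
      unfold rowp
      refine ((CT.lf tc ts.neg).pow _).mul ((CT.lf ts tc).pow _) |>.mul ?_
      rw [← hw.card a, ← prod_if]
      refine CT.prod fun r _ => ?_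
      split_ifs
      · refine CT.lf ?_ ?_
        · have := ((hz0 r).mul tc).sub ts
          simpa using this
        · have := (((hz0 r).mul ts).mul tτ).neg.sub (tc.mul tτ)
          simpa using this
      · exact CT.const _ _
    · have h2 : (lf (-s') (-(c' * τ')) ^ l).coeff 0 = (-s') ^ l := by
        rw [coeff_zero_eq_eval_zero, eval_pow, ← coeff_zero_eq_eval_zero, lf_coeff, if_pos rfl]
      rw [h2]
      exact pow_ne_zero _ (neg_ne_zero.2 hs0)

end Pool.GTR.S
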